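import Mathlib
import Pool.Agent.Helper86.DML.LocalField

/-!
# FK: the valuation ring of the algebraic closure of `ℚ_p`
-/

set_option autoImplicit false

namespace Pool.Agent.Helper87.FK

open Pool.Agent.Helper86.DML

noncomputable section

variable {p : ℕ} [hp : Fact p.Prime]

theorem norm_le_one_of_isIntegral {x : PadicAlgCl p} (h : IsIntegral ℤ_[p] x) : ‖x‖ ≤ 1 := by
  have hint : IsIntegral ℚ_[p] x := (Algebra.IsAlgebraic.isAlgebraic x).isIntegral
  have h1 : spectralValue (minpoly ℚ_[p] x) ≤ 1 := by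
    rw [spectralValue_le_one_iff (minpoly.monic hint)]
    have : IsScalarTower ℤ_[p] ℚ_[p] (PadicAlgCl p) := inferInstance
    have h2 := minpoly.isIntegrallyClosed_eq_field_fractions ℚ_[p] (PadicAlgCl p) h
    rw [Algebra.algebraMap_self, RingHom.id_apply] at h2
    intro n
    rw [h2, Polynomial.coeff_map]
    exact PadicInt.norm_le_one _
  exact h1

/-- the valuation ring -/
abbrev Oc (p : ℕ) [Fact p.Prime] : Subalgebra ℤ_[p] (PadicAlgCl p) :=
  integralClosure ℤ_[p] (PadicAlgCl p)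

theorem mem_Oc {x : PadicAlgCl p} : x ∈ Oc p ↔ ‖x‖ ≤ 1 :=
  ⟨norm_le_one_of_isIntegral, isIntegral_of_norm_le_one x⟩

/-- its maximal ideal -/
def mm (p : ℕ) [Fact p.Prime] : Ideal (Oc p) where
  carrier := {x | ‖(x : PadicAlgCl p)‖ < 1}
  zero_mem' := by simp
  add_mem' := by
    intro a b ha hb
    have h := PadicAlgCl.isNonarchimedean p (a : PadicAlgCl p) (b : PadicAlgCl p)
    exact lt_of_le_of_lt h (max_lt ha hb)
  smul_mem' := by
    intro c x hx
    have h1 : ‖(c : PadicAlgCl p)‖ ≤ 1 := mem_Oc.1 c.2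
    have h2 : ‖(x : PadicAlgCl p)‖ < 1 := hx
    show ‖((c • x : Oc p) : PadicAlgCl p)‖ < 1
    rw [smul_eq_mul, MulMemClass.coe_mul, norm_mul]
    calc ‖(c : PadicAlgCl p)‖ * ‖(x : PadicAlgCl p)‖ ≤ 1 * ‖(x : PadicAlgCl p)‖ :=
          mul_le_mul_of_nonneg_right h1 (norm_nonneg _)
      _ < 1 := by rw [one_mul]; exact h2

theorem mem_mm {x : Oc p} : x ∈ mm p ↔ ‖(x : PadicAlgCl p)‖ < 1 := Iff.rfl

instance mm_isMaximal : (mm p).IsMaximal := by
  rw [Ideal.isMaximal_iff]
  constructor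
  · rw [mem_mm]
    simp
  · intro J x _ hx hxJ
    rw [mem_mm, not_lt] at hx
    have h1 : ‖(x : PadicAlgCl p)‖ = 1 := le_antisymm (mem_Oc.1 x.2) hx
    have hx0 : (x : PadicAlgCl p) ≠ 0 := by
      intro h0
      rw [h0, norm_zero] at h1
      exact zero_ne_one h1
    have h2 : (x : PadicAlgCl p)⁻¹ ∈ Oc p := by
      rw [mem_Oc, norm_inv, h1, inv_one]
    have h3 : (1 : Oc p) = ⟨(x : PadicAlgCl p)⁻¹, h2⟩ * x := by
      apply Subtype.ext
      simp [hx0]
    rw [h3]
    exact J.mul_mem_left _ hxJ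

/-- the residue field -/
abbrev kk (p : ℕ) [Fact p.Prime] : Type := Oc p ⧸ mm p

instance kk_field : Field (kk p) := Ideal.Quotient.field (mm p)

theorem norm_p_lt : ‖(p : PadicAlgCl p)‖ < 1 := by
  have h1 : (p : PadicAlgCl p) = ((p : ℚ_[p]) : PadicAlgCl p) :=
    (map_natCast (algebraMap ℚ_[p] (PadicAlgCl p)) p).symm
  rw [h1, PadicAlgCl.norm_extends]
  exact Padic.norm_p_lt_one

theorem p_mem_mm : (p : Oc p) ∈ mm p := by
  rw [mem_mm]
  exact norm_p_lt

/-- if the inverse of an element of a subalgebra is integral, it lies in the subalgebra -/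
theorem inv_mem_of_isIntegral {O : Subalgebra ℤ_[p] (PadicAlgCl p)} {x : PadicAlgCl p} (hx : x ∈ O)
    (hx0 : x ≠ 0) (h : IsIntegral ℤ_[p] x⁻¹) : x⁻¹ ∈ O := by
  obtain ⟨P, hP, h0⟩ := h
  set n := P.natDegree with hn
  rcases Nat.eq_zero_or_pos n with hn0 | hn0
  · have h1 : P = 1 := by
      exact hP.natDegree_eq_zero.1 (by rw [← hn, ← hn0])
    rw [h1, Polynomial.eval₂_one] at h0
    exact absurd h0 one_ne_zero
  · rw [hP.as_sum, Polynomial.eval₂_add, Polynomial.eval₂_pow, Polynomial.eval₂_X,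
      Polynomial.eval₂_finset_sum] at h0
    have h1 : x⁻¹ = -∑ i ∈ Finset.range n, algebraMap ℤ_[p] (PadicAlgCl p) (P.coeff i) *
        x ^ (n - 1 - i) := by
      have h2 : x⁻¹ ^ n * x ^ (n - 1) = x⁻¹ := by
        obtain ⟨m, hm⟩ : ∃ m, n = m + 1 := ⟨n - 1, by omega⟩
        rw [hm, Nat.add_sub_cancel, pow_succ, mul_comm, ← mul_assoc, ← mul_pow,
          mul_inv_cancel₀ hx0, one_pow, one_mul]
      have h3 : ∀ i ∈ Finset.range n, (Polynomial.eval₂ (algebraMap ℤ_[p] (PadicAlgCl p)) x⁻¹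
          (Polynomial.C (P.coeff i) * Polynomial.X ^ i)) * x ^ (n - 1) =
          algebraMap ℤ_[p] (PadicAlgCl p) (P.coeff i) * x ^ (n - 1 - i) := by
        intro i hi
        rw [Finset.mem_range] at hi
        rw [Polynomial.eval₂_mul, Polynomial.eval₂_C, Polynomial.eval₂_pow, Polynomial.eval₂_X,
          mul_assoc]
        congr 1
        have h4 : n - 1 = i + (n - 1 - i) := by omega
        rw [h4, pow_add, ← mul_assoc, ← mul_pow, inv_mul_cancel₀ hx0, one_pow, one_mul]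
        congr 1
        omega
      have h5 := congrArg (fun y => y * x ^ (n - 1)) h0
      simp only [add_mul, zero_mul, Finset.sum_mul] at h5
      rw [h2, Finset.sum_congr rfl h3] at h5
      exact eq_neg_of_add_eq_zero_left h5
    rw [h1]
    exact O.neg_mem (O.sum_mem fun i _ => O.mul_mem (O.algebraMap_mem _) (O.pow_mem hx _))

/-- elements of norm one are units -/
theorem isUnit_of_norm_eq_one {O : Subalgebra ℤ_[p] (PadicAlgCl p)} (x : O)
    (h : ‖(x : PadicAlgCl p)‖ = 1) : IsUnit x := by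
  have hx0 : (x : PadicAlgCl p) ≠ 0 := by
    intro h0
    rw [h0, norm_zero] at h
    exact zero_ne_one h
  have h1 : (x : PadicAlgCl p)⁻¹ ∈ O := inv_mem_of_isIntegral x.2 hx0
    (isIntegral_of_norm_le_one _ (by rw [norm_inv, h, inv_one]))
  refine IsUnit.of_mul_eq_one ⟨_, h1⟩ ?_
  apply Subtype.ext
  simp [hx0]

end

end Pool.Agent.Helper87.FK
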