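import Mathlib
import Pool.Agent.Helper87.FK.Val

/-!
# FK: every prime of a number field over `p` comes from an embedding in the algebraic closure of
`ℚ_p`
-/

set_option autoImplicit false

namespace Pool.Agent.Helper87.FK

open NumberField

noncomputable section

variable {p : ℕ} [hp : Fact p.Prime]

theorem norm_le_one_of_ringOfIntegers {K : Type} [Field K] [NumberField K] (φ : K →+* PadicAlgCl p)
    (x : 𝓞 K) : ‖φ x‖ ≤ 1 := by
  apply norm_le_one_of_isIntegral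
  have h1 : IsIntegral ℤ (x : K) := x.2
  have h2 : IsIntegral ℤ (φ (x : K)) := h1.map (φ.toIntAlgHom)
  exact h2.tower_top

/-- the restriction of an embedding to the rings of integers -/
def toOc {K : Type} [Field K] [NumberField K] (φ : K →+* PadicAlgCl p) : 𝓞 K →+* Oc p where
  toFun x := ⟨φ x, mem_Oc.2 (norm_le_one_of_ringOfIntegers φ x)⟩
  map_one' := Subtype.ext (by simp)
  map_mul' x y := Subtype.ext (by simp)
  map_zero' := Subtype.ext (by simp)
  map_add' x y := Subtype.ext (by simp)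

theorem under_eq {B : Type*} [CommRing B] (I J : Ideal B) (hI : I.IsPrime) (hJ : J.IsPrime)
    (h1 : (p : B) ∈ I) (h2 : (p : B) ∈ J) :
    I.LiesOver (Ideal.span {(p : ℤ)}) ∧ J.LiesOver (Ideal.span {(p : ℤ)}) := by
  have hmax : (Ideal.span {(p : ℤ)}).IsMaximal := by
    have h3 : Prime (p : ℤ) := Nat.prime_iff_prime_int.1 hp.out
    exact PrincipalIdealRing.isMaximal_of_irreducible h3.irreducible
  have key : ∀ I : Ideal B, I.IsPrime → (p : B) ∈ I → I.LiesOver (Ideal.span {(p : ℤ)}) := by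
    intro I hI h1
    refine ⟨?_⟩
    refine hmax.eq_of_le (hI.under ℤ).ne_top ?_
    rw [Ideal.span_le, Set.singleton_subset_iff]
    show algebraMap ℤ B (p : ℤ) ∈ I
    rw [map_natCast]
    exact h1
  exact ⟨key I hI h1, key J hJ h2⟩

theorem exists_embedding {K : Type} [Field K] [NumberField K] (P : Ideal (𝓞 K)) (hP : P.IsMaximal)
    (hpP : (p : 𝓞 K) ∈ P) : ∃ φ : K →+* PadicAlgCl p, ∀ x ∈ P, ‖φ (x : 𝓞 K)‖ < 1 := by
  have halg : Algebra.IsAlgebraic ℚ (AlgebraicClosure K) := Algebra.IsAlgebraic.trans ℚ K _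
  have hcl : IsAlgClosure ℚ (AlgebraicClosure K) := ⟨inferInstance, halg⟩
  have hnor : Normal ℚ (AlgebraicClosure K) := IsAlgClosure.normal _ _
  let N := IntermediateField.normalClosure ℚ K (AlgebraicClosure K)
  have : NumberField N := NumberField.mk
  have hN : Normal ℚ N := normalClosure.normal ℚ K (AlgebraicClosure K)
  have : IsGalois ℚ N := IsGalois.mk
  obtain ⟨Q, hQ, hQP⟩ := Ideal.exists_maximal_ideal_liesOver_of_isIntegral (S := 𝓞 N) P
  let φ₀ : N →ₐ[ℚ] PadicAlgCl p := IsAlgClosed.lift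
  let Q₀ : Ideal (𝓞 N) := (mm p).comap (toOc (φ₀ : N →+* PadicAlgCl p))
  have hQ₀ : Q₀.IsPrime := Ideal.IsPrime.comap _
  have hpQ₀ : (p : 𝓞 N) ∈ Q₀ := by
    show toOc (φ₀ : N →+* PadicAlgCl p) (p : 𝓞 N) ∈ mm p
    rw [map_natCast]
    exact p_mem_mm
  have hpQ : (p : 𝓞 N) ∈ Q := by
    have h1 : (p : 𝓞 K) ∈ Q.under (𝓞 K) := by
      rw [← hQP.over]
      exact hpP
    have h2 : algebraMap (𝓞 K) (𝓞 N) (p : 𝓞 K) ∈ Q := h1
    rwa [map_natCast] at h2
  obtain ⟨h1, h2⟩ := under_eq Q Q₀ hQ.isPrime hQ₀ hpQ hpQ₀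
  obtain ⟨σ, hσ⟩ := Ideal.exists_smul_eq_of_isGaloisGroup (Ideal.span {(p : ℤ)}) Q Q₀ (N ≃ₐ[ℚ] N)
  refine ⟨((φ₀ : N →+* PadicAlgCl p).comp (σ : N →+* N)).comp (algebraMap K N), fun x hx => ?_⟩
  have h3 : algebraMap (𝓞 K) (𝓞 N) x ∈ Q := by
    have h4 : x ∈ Q.under (𝓞 K) := by
      rw [← hQP.over]
      exact hx
    exact h4
  have h5 : σ • (algebraMap (𝓞 K) (𝓞 N) x) ∈ Q₀ := by
    rw [← hσ]
    exact Ideal.smul_mem_pointwise_smul σ _ _ h3
  exact h5

end

end Pool.Agent.Helper87.FK
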