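import Mathlib
import Pool.Agent.Helper26.FD.Cpx

/-!
# FK: extension of an embedding of a countable field to an isomorphism of the complex numbers with
the algebraic closure of the `p`-adic numbers
-/

set_option autoImplicit false

namespace Pool.Agent.Helper87.FK

open Cardinal Set

theorem exists_equiv_ext {K C E : Type} [Field K] [Field C] [Field E] [Countable K]
    [IsAlgClosed C] [IsAlgClosed E] (hC : ℵ₀ < #C) (hCE : #C = #E) (σ : K →+* C) (φ : K →+* E) :
    ∃ τ : C ≃+* E, ∀ x, τ (σ x) = φ x := by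
  let : Algebra K C := σ.toAlgebra
  let : Algebra K E := φ.toAlgebra
  obtain ⟨s, hs⟩ := exists_isTranscendenceBasis K C
  obtain ⟨t, ht⟩ := exists_isTranscendenceBasis K E
  have hE : ℵ₀ < #E := hCE ▸ hC
  have h1 := IsAlgClosed.cardinal_eq_cardinal_transcendence_basis_of_aleph0_lt' _ hs
    (mk_le_aleph0 (α := K)) hC
  have h2 := IsAlgClosed.cardinal_eq_cardinal_transcendence_basis_of_aleph0_lt' _ ht
    (mk_le_aleph0 (α := K)) hE
  have h3 : #s = #t := by rw [← h1, ← h2, hCE]
  obtain ⟨e⟩ := Cardinal.eq.1 h3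
  let := IsAlgClosed.isAlgClosure_of_transcendence_basis _ hs
  let := IsAlgClosed.isAlgClosure_of_transcendence_basis _ ht
  let e' : Algebra.adjoin K (range (Subtype.val : s → C)) ≃ₐ[K]
      Algebra.adjoin K (range (Subtype.val : t → E)) :=
    (hs.1.aevalEquiv.symm.trans (MvPolynomial.renameEquiv K e)).trans ht.1.aevalEquiv
  refine ⟨IsAlgClosure.equivOfEquiv C E e'.toRingEquiv, fun x => ?_⟩
  have h4 := IsAlgClosure.equivOfEquiv_algebraMap C E e'.toRingEquiv
    (algebraMap K (Algebra.adjoin K (range (Subtype.val : s → C))) x)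
  have h5 : e'.toRingEquiv (algebraMap K (Algebra.adjoin K (range (Subtype.val : s → C))) x) =
      algebraMap K _ x := e'.commutes x
  rw [h5] at h4
  exact h4

/-- the extension of a pair of embeddings of a number field -/
theorem exists_iso_ext {K : Type} [Field K] [Countable K] {p : ℕ} [Fact p.Prime] (σ : K →+* ℂ)
    (φ : K →+* PadicAlgCl p) : ∃ τ : ℂ ≃+* PadicAlgCl p, ∀ x, τ (σ x) = φ x := by
  refine exists_equiv_ext ?_ ?_ σ φ
  · rw [mk_complex]
    exact aleph0_lt_continuum
  · rw [mk_complex, Pool.Agent.Helper26.FD.mk_padicAlgCl]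

end Pool.Agent.Helper87.FK
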