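import Mathlib

/-!
# FK: full dynamical Mordell-Lang for the endomorphisms of `P^N` over number fields. Definitions
-/

set_option autoImplicit false

namespace Pool.Agent.Helper87.FK

open MvPolynomial

noncomputable section

/-- the self-map of `S ^ n` given by `n` polynomials over `R` and a homomorphism `R → S` -/
def gm {n : ℕ} {R S : Type*} [CommRing R] [CommRing S] (φ : R →+* S)
    (F : Fin n → MvPolynomial (Fin n) R) (x : Fin n → S) : Fin n → S :=
  fun i => eval₂Hom φ x (F i)

/-- The polynomials `F i` have no common nontrivial zero, and the Jacobian determinant does not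
vanish at the nonzero periodic points. -/
def GoodF {n : ℕ} {k₀ : Type} [Field k₀] (F : Fin n → MvPolynomial (Fin n) k₀) : Prop :=
  ∀ (k : Type) [Field k] (φ : k₀ →+* k) (x : Fin n → k), x ≠ 0 → gm φ F x ≠ 0 ∧
    ∀ m, 1 ≤ m → (gm φ F)^[m] x = x →
      (Matrix.of fun i j => eval₂Hom φ x (pderiv j (F i))).det ≠ 0

theorem gm_comp {n : ℕ} {R S T : Type*} [CommRing R] [CommRing S] [CommRing T] (φ : R →+* S)
    (π : S →+* T) (F : Fin n → MvPolynomial (Fin n) R) (x : Fin n → S) :
    gm (π.comp φ) F (fun i => π (x i)) = fun i => π (gm φ F x i) :=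
  funext fun i => (map_eval₂Hom φ x π (F i)).symm

theorem gm_comp_iterate {n : ℕ} {R S T : Type*} [CommRing R] [CommRing S] [CommRing T] (φ : R →+* S)
    (π : S →+* T) (F : Fin n → MvPolynomial (Fin n) R) (k : ℕ) (x : Fin n → S) :
    (gm (π.comp φ) F)^[k] (fun i => π (x i)) = fun i => π ((gm φ F)^[k] x i) := by
  induction k generalizing x with
  | zero => rfl
  | succ k ih => rw [Function.iterate_succ_apply, Function.iterate_succ_apply, gm_comp, ih]

theorem gm_map {n : ℕ} {R S T : Type*} [CommRing R] [CommRing S] [CommRing T] (φ : R →+* S)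
    (π : S →+* T) (F : Fin n → MvPolynomial (Fin n) R) (x : Fin n → T) :
    gm π (fun i => map φ (F i)) x = gm (π.comp φ) F x :=
  funext fun i => MvPolynomial.eval₂Hom_map_hom φ x π (F i)

theorem GoodF.ne_zero {n : ℕ} {k₀ : Type} [Field k₀] {F : Fin n → MvPolynomial (Fin n) k₀}
    (hF : GoodF F) {k : Type} [Field k] (φ : k₀ →+* k) {x : Fin n → k} (hx : x ≠ 0) (m : ℕ) :
    (gm φ F)^[m] x ≠ 0 := by
  induction m with
  | zero => exact hx
  | succ m ih =>
    rw [Function.iterate_succ_apply']
    exact (hF k φ _ ih).1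

end

end Pool.Agent.Helper87.FK
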