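import Mathlib
import Pool.Agent.Helper87.FK.Defs
import Pool.Agent.Helper87.FK.Val
import Pool.Agent.Helper26.FD.Pad

/-!
# FK: orbits over the algebraic closure of `ℚ_p`
-/

set_option autoImplicit false

namespace Pool.Agent.Helper87.FK

open MvPolynomial Pool.Agent.Helper86.DML

noncomputable section

variable {p : ℕ} [hp : Fact p.Prime] {n : ℕ}

/-- lifting a set of elements of norm at most one -/
theorem exists_lift_poly {O : Subalgebra ℤ_[p] (PadicAlgCl p)} (G : MvPolynomial (Fin n) (PadicAlgCl p))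
    (h : ∀ s, coeff s G ∈ O) : ∃ G' : MvPolynomial (Fin n) O,
      map (O.val : O →+* PadicAlgCl p) G' = G := by
  have h7 : G ∈ Set.range (MvPolynomial.map (σ := Fin n) (O.val : O →+* PadicAlgCl p)) := by
    rw [mem_range_map_iff_coeffs_subset]
    intro a ha
    rw [Finset.mem_coe, mem_coeffs_iff] at ha
    obtain ⟨s, hs, rfl⟩ := ha
    exact ⟨⟨_, h s⟩, rfl⟩
  exact h7

theorem main_padic (hp3 : 3 ≤ p) {B k₀ : Type} [CommRing B] [Field k₀] (q : B →+* k₀)
    (hq : Function.Surjective q) (ψ : B →+* PadicAlgCl p) (hψ : ∀ b, ‖ψ b‖ ≤ 1)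
    (hψq : ∀ b, q b = 0 → ‖ψ b‖ < 1) (F : Fin n → MvPolynomial (Fin n) B)
    (hG : GoodF fun i => map q (F i))
    (β : Fin n → PadicAlgCl p) (hβ : ∀ i, ‖β i‖ ≤ 1) (i₀ : Fin n) (hβ1 : β i₀ = 1) :
    ∃ n₀ Q, 1 ≤ Q ∧ ∀ (G : MvPolynomial (Fin n) (PadicAlgCl p)) (r : ℕ),
      {k | eval ((gm ψ F)^[n₀ + r + Q * k] β) G = 0}.Finite ∨
        ∀ k, eval ((gm ψ F)^[n₀ + r + Q * k] β) G = 0 := by
  classical
  -- the residue field
  let ψ' : B →+* Oc p :=
    { toFun := fun b => ⟨ψ b, mem_Oc.2 (hψ b)⟩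
      map_one' := Subtype.ext (by simp)
      map_mul' := fun x y => Subtype.ext (by simp)
      map_zero' := Subtype.ext (by simp)
      map_add' := fun x y => Subtype.ext (by simp) }
  let π : Oc p →+* kk p := Ideal.Quotient.mk (mm p)
  obtain ⟨φ, hφ⟩ : ∃ φ : k₀ →+* kk p, φ.comp q = π.comp ψ' := by
    refine ⟨q.liftOfSurjective hq ⟨π.comp ψ', fun b hb => ?_⟩, ?_⟩
    · have h1 : ‖ψ b‖ < 1 := hψq b hb
      exact Ideal.Quotient.eq_zero_iff_mem.2 h1
    · exact RingHom.liftOfRightInverse_comp _ _ _ _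
  -- the ring of coefficients
  let A : Set (PadicAlgCl p) := Set.range β ∪
    ⋃ i, (fun s => ψ (coeff s (F i))) '' ((F i).support : Set _)
  have hAfin : A.Finite := (Set.finite_range β).union
    (Set.finite_iUnion fun i => (F i).support.finite_toSet.image _)
  have hAint : ∀ a ∈ A, IsIntegral ℤ_[p] a := by
    rintro a (⟨i, rfl⟩ | ha)
    · exact isIntegral_of_norm_le_one _ (hβ i)
    · obtain ⟨i, s, -, rfl⟩ := Set.mem_iUnion.1 ha
      exact isIntegral_of_norm_le_one _ (hψ _)
  let O : Subalgebra ℤ_[p] (PadicAlgCl p) := Algebra.adjoin ℤ_[p] A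
  obtain ⟨hfin, hfree⟩ := Pool.Agent.Helper26.FD.adjoin_finite (p := p) hAfin hAint
  have hOint : ∀ x ∈ O, ‖x‖ ≤ 1 := by
    intro x hx
    have h1 : O ≤ Oc p := Algebra.adjoin_le fun a ha => hAint a ha
    exact mem_Oc.1 (h1 hx)
  have hOle : O ≤ Oc p := fun x hx => mem_Oc.2 (hOint x hx)
  let ι : O →+* Oc p := (Subalgebra.inclusion hOle).toRingHom
  have hι : ∀ o : O, ((ι o : Oc p) : PadicAlgCl p) = (o : PadicAlgCl p) := fun o => rfl
  have hcoef : ∀ i s, ψ (coeff s (F i)) ∈ O := by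
    intro i s
    by_cases hs : s ∈ (F i).support
    · exact Algebra.subset_adjoin (Or.inr (Set.mem_iUnion.2 ⟨i, s, hs, rfl⟩))
    · rw [notMem_support_iff.1 hs, map_zero]
      exact O.zero_mem
  choose Φ hΦ using fun i => exists_lift_poly (O := O) (map ψ (F i)) (fun s => by
    rw [coeff_map]
    exact hcoef i s)
  have hΦι : ∀ i, map ι (Φ i) = map ψ' (F i) := by
    intro i
    have hinj : Function.Injective (map (σ := Fin n) ((Oc p).val : Oc p →+* PadicAlgCl p)) :=
      map_injective _ Subtype.val_injective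
    apply hinj
    rw [map_map, map_map]
    exact hΦ i
  let x₀ : Fin n → O := fun i => ⟨β i, Algebra.subset_adjoin (Or.inl ⟨i, rfl⟩)⟩
  let x : ℕ → Fin n → O := fun k => (pmap Φ)^[k] x₀
  have hx : ∀ k, x (k + 1) = pmap Φ (x k) := fun k => Function.iterate_succ_apply' _ _ _
  have hpmapO : ∀ y : Fin n → O, (fun i => ((pmap Φ y i : O) : PadicAlgCl p)) =
      gm ψ F (fun i => (y i : PadicAlgCl p)) := by
    intro y
    funext i
    have h1 : ((pmap Φ y i : O) : PadicAlgCl p) = (O.val : O →+* PadicAlgCl p) (eval y (Φ i)) := rfl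
    rw [h1, gm, ← RingHom.id_comp ψ]
    have h2 := eval₂_comp (O.val : O →+* PadicAlgCl p) y (Φ i)
    rw [h2, ← eval_map, hΦ, eval_map]
    rfl
  have hxval : ∀ k, (fun i => ((x k i : O) : PadicAlgCl p)) = (gm ψ F)^[k] β := by
    intro k
    induction k with
    | zero => rfl
    | succ k ih => rw [hx, hpmapO, ih, Function.iterate_succ_apply']
  have hpmapK : ∀ y : Fin n → O, (fun i => π (ι (pmap Φ y i))) =
      gm φ (fun i => map q (F i)) (fun i => π (ι (y i))) := by
    intro y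
    rw [gm_map, hφ]
    funext i
    rw [gm, coe_eval₂Hom, ← eval₂_map, ← hΦι, eval₂_map]
    exact eval₂_comp (π.comp ι) y (Φ i)
  have hxk : ∀ k, (fun i => π (ι (x k i))) =
      (gm φ (fun i => map q (F i)))^[k] (fun i => π (ι (x₀ i))) := by
    intro k
    induction k with
    | zero => rfl
    | succ k ih => rw [hx, hpmapK, ih, Function.iterate_succ_apply']
  have hne : (fun i => π (ι (x₀ i))) ≠ 0 := by
    intro h
    have h2 := congrFun h i₀
    have h3 : x₀ i₀ = 1 := Subtype.ext hβ1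
    simp only [h3, map_one] at h2
    exact one_ne_zero h2
  have hdet : ∀ i ℓ, 1 ≤ ℓ → (∀ j, (p : O) ∣ x (i + ℓ) j - x i j) →
      IsUnit (Matrix.of fun a b => eval (x i) (pderiv b (Φ a))).det := by
    intro i ℓ hℓ hper
    have hper' : (gm φ (fun i => map q (F i)))^[ℓ] (fun j => π (ι (x i j))) =
        fun j => π (ι (x i j)) := by
      have h4 := hxk (i + ℓ)
      rw [add_comm, Function.iterate_add_apply, ← hxk] at h4
      rw [← h4]
      funext j
      obtain ⟨w, hw⟩ := hper j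
      have h5 : x (ℓ + i) j = x i j + (p : O) * w := by
        rw [add_comm ℓ i, ← hw]
        ring
      rw [h5, map_add, map_add, map_mul, map_mul, map_natCast, map_natCast]
      have h6 : ((p : ℕ) : kk p) = 0 := by
        have h7 : π (p : Oc p) = 0 := Ideal.Quotient.eq_zero_iff_mem.2 p_mem_mm
        rwa [map_natCast] at h7
      rw [h6, zero_mul, add_zero]
    have hgood := (hG (kk p) φ (fun j => π (ι (x i j))) (by
      rw [hxk]
      exact hG.ne_zero φ hne i)).2 ℓ hℓ hper'
    apply isUnit_of_norm_eq_one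
    by_contra hn1
    apply hgood
    have hlt : ‖(((Matrix.of fun a b => eval (x i) (pderiv b (Φ a))).det : O) : PadicAlgCl p)‖ < 1 :=
      lt_of_le_of_ne (hOint _ (Subtype.mem _)) hn1
    have h6 : (Matrix.of fun a b => eval₂Hom φ (fun j => π (ι (x i j)))
        (pderiv b (map q (F a)))) =
        (π.comp ι).mapMatrix (Matrix.of fun a b => eval (x i) (pderiv b (Φ a))) := by
      ext a b
      rw [RingHom.mapMatrix_apply, Matrix.map_apply, Matrix.of_apply, Matrix.of_apply]
      have h8 : (π.comp ι) (eval (x i) (pderiv b (Φ a))) =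
          eval₂ (π.comp ι) (fun j => (π.comp ι) (x i j)) (pderiv b (Φ a)) := eval₂_comp _ _ _
      have h9 : eval₂ (π.comp ι) (fun j => (π.comp ι) (x i j)) (pderiv b (Φ a)) =
          eval₂ (π.comp ψ') (fun j => (π.comp ι) (x i j)) (pderiv b (F a)) := by
        rw [← eval₂_map, ← pderiv_map, hΦι, pderiv_map, eval₂_map]
      rw [h8, h9, pderiv_map, coe_eval₂Hom, eval₂_map, hφ]
      rfl
    have h7 := congrArg Matrix.det h6
    rw [← RingHom.map_det] at h7
    refine h7.trans ?_
    exact Ideal.Quotient.eq_zero_iff_mem.2 hlt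
  obtain ⟨n₀, Q, hQ, hdich⟩ := Pool.Agent.Helper26.FD.dichotomy hp3 Φ x hx hdet
  refine ⟨n₀, Q, hQ, fun G r => ?_⟩
  by_cases hG0 : G = 0
  · right
    intro k
    rw [hG0, map_zero]
  obtain ⟨s₀, hs₀, hmax⟩ := Finset.exists_max_image G.support (fun s => ‖coeff s G‖)
    (support_nonempty.2 hG0)
  have hc0 : coeff s₀ G ≠ 0 := mem_support_iff.1 hs₀
  set c := (coeff s₀ G)⁻¹ with hc
  have hcne : c ≠ 0 := inv_ne_zero hc0
  have hcoefG : ∀ s, ‖coeff s (C c * G)‖ ≤ 1 := by
    intro s
    rw [coeff_C_mul, norm_mul, hc, norm_inv]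
    have hpos : 0 < ‖coeff s₀ G‖ := norm_pos_iff.2 hc0
    rw [inv_mul_le_iff₀ hpos, mul_one]
    by_cases hs : s ∈ G.support
    · exact hmax s hs
    · rw [notMem_support_iff.1 hs, norm_zero]
      exact hpos.le
  let A' : Set (PadicAlgCl p) := A ∪ ((fun s => coeff s (C c * G)) '' ((C c * G).support : Set _))
  have hA'fin : A'.Finite := hAfin.union ((C c * G).support.finite_toSet.image _)
  obtain ⟨hfin', hfree'⟩ := Pool.Agent.Helper26.FD.adjoin_finite (p := p) hA'fin (by
    rintro a (ha | ⟨s, -, rfl⟩)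
    · exact hAint a ha
    · exact isIntegral_of_norm_le_one _ (hcoefG s))
  let O' : Subalgebra ℤ_[p] (PadicAlgCl p) := Algebra.adjoin ℤ_[p] A'
  have hOO' : O ≤ O' := Algebra.adjoin_mono Set.subset_union_left
  let ρ : O →+* O' := (Subalgebra.inclusion hOO').toRingHom
  have hval : ∀ o : O, ((ρ o : O') : PadicAlgCl p) = (o : PadicAlgCl p) := fun o => rfl
  obtain ⟨G', hG'⟩ := exists_lift_poly (O := O') (C c * G) (fun s => by
    by_cases hs : s ∈ (C c * G).support
    · exact Algebra.subset_adjoin (Or.inr ⟨s, hs, rfl⟩)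
    · rw [notMem_support_iff.1 hs]
      exact O'.zero_mem)
  have hiff : ∀ m, eval ((gm ψ F)^[m] β) G = 0 ↔ eval (fun i => ρ (x m i)) G' = 0 := by
    intro m
    have h10 : (O'.val : O' →+* PadicAlgCl p) (eval (fun i => ρ (x m i)) G') =
        c * eval ((gm ψ F)^[m] β) G := by
      have h11 : c * eval ((gm ψ F)^[m] β) G = eval ((gm ψ F)^[m] β) (C c * G) := by
        rw [map_mul, eval_C]
      rw [h11, ← hG', eval_map, ← hxval, eval₂_comp]
      rfl
    constructor
    · intro h0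
      rw [h0, mul_zero] at h10
      exact (map_eq_zero_iff _ Subtype.val_injective).1 h10
    · intro h0
      rw [h0, map_zero] at h10
      exact (mul_eq_zero.1 h10.symm).resolve_left hcne
  have hfin2 := hdich O' ρ G' r
  simp only [hiff]
  exact hfin2

end

end Pool.Agent.Helper87.FK
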