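import Mathlib
import Pool.Agent.Helper87.FK.Loc
import Pool.Agent.Helper87.FK.Iso
import Pool.Agent.Helper87.FK.Emb
import Pool.Agent.Helper26.FD.Asm

/-!
# FK: complex points
-/

set_option autoImplicit false

namespace Pool.Agent.Helper87.FK

open MvPolynomial Pool.Agent.Helper86.DML

noncomputable section

variable {p : ℕ} [hp : Fact p.Prime] {n : ℕ}

theorem eval₂_smul_hom {R S : Type*} [CommRing R] [CommRing S] (φ : R →+* S) {d : ℕ}
    {P : MvPolynomial (Fin n) R} (hP : P.IsHomogeneous d) (t : S) (x : Fin n → S) :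
    eval₂Hom φ (fun i => t * x i) P = t ^ d * eval₂Hom φ x P := by
  rw [coe_eval₂Hom, coe_eval₂Hom, eval₂_eq, eval₂_eq, Finset.mul_sum]
  refine Finset.sum_congr rfl fun s hs => ?_
  have h1 : s.degree = d := by
    by_contra hne
    exact (mem_support_iff.1 hs) (hP.coeff_eq_zero hne)
  have h2 : ∏ i ∈ s.support, (t * x i) ^ s i = t ^ d * ∏ i ∈ s.support, x i ^ s i := by
    simp only [mul_pow, Finset.prod_mul_distrib]
    rw [Finset.prod_pow_eq_pow_sum, ← h1]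
    rfl
  rw [h2]
  ring

theorem gm_smul {R S : Type*} [CommRing R] [CommRing S] (φ : R →+* S) {d : ℕ}
    {F : Fin n → MvPolynomial (Fin n) R} (hF : ∀ i, (F i).IsHomogeneous d) (t : S) (x : Fin n → S) :
    gm φ F (fun i => t * x i) = fun i => t ^ d * gm φ F x i :=
  funext fun i => eval₂_smul_hom φ (hF i) t x

theorem gm_smul_iterate {R S : Type*} [CommRing R] [CommRing S] (φ : R →+* S) {d : ℕ}
    {F : Fin n → MvPolynomial (Fin n) R} (hF : ∀ i, (F i).IsHomogeneous d) (m : ℕ) (t : S)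
    (x : Fin n → S) :
    (gm φ F)^[m] (fun i => t * x i) = fun i => t ^ d ^ m * (gm φ F)^[m] x i := by
  induction m generalizing t x with
  | zero => simp
  | succ m ih =>
    rw [Function.iterate_succ_apply, gm_smul φ hF, ih, Function.iterate_succ_apply]
    funext i
    rw [← pow_mul, pow_succ']

theorem etale_dml (hp3 : 3 ≤ p) {B k₀ : Type} [CommRing B] [Field k₀] (q : B →+* k₀)
    (hq : Function.Surjective q) (σ : B →+* ℂ) (τ : ℂ ≃+* PadicAlgCl p)
    (hψ : ∀ b, ‖τ (σ b)‖ ≤ 1) (hψq : ∀ b, q b = 0 → ‖τ (σ b)‖ < 1) {d : ℕ}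
    (F : Fin n → MvPolynomial (Fin n) B) (hF : ∀ i, (F i).IsHomogeneous d)
    (hG : GoodF fun i => map q (F i)) (α : Fin n → ℂ) (hα : α ≠ 0) :
    ∃ n₀ Q, 1 ≤ Q ∧ ∀ (e : ℕ) (G : MvPolynomial (Fin n) ℂ), G.IsHomogeneous e → ∀ r,
      {k | eval ((gm σ F)^[n₀ + r + Q * k] α) G = 0}.Finite ∨
        ∀ k, eval ((gm σ F)^[n₀ + r + Q * k] α) G = 0 := by
  have hσ0 : (fun i => τ (α i)) ≠ 0 := by
    intro h
    apply hα
    funext i
    exact (map_eq_zero τ).1 (congrFun h i)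
  obtain ⟨i₀, t, ht, hnorm, hone⟩ := Pool.Agent.Helper26.FD.exists_primitive_vec hσ0
  let τ' : ℂ →+* PadicAlgCl p := τ
  obtain ⟨n₀, Q, hQ, h⟩ := main_padic hp3 q hq (τ'.comp σ) hψ hψq F hG (fun i => t * τ (α i))
    hnorm i₀ hone
  refine ⟨n₀, Q, hQ, fun e G hGe r => ?_⟩
  have hiff : ∀ m, eval ((gm σ F)^[m] α) G = 0 ↔
      eval ((gm (τ'.comp σ) F)^[m] (fun i => t * τ (α i))) (map τ' G) = 0 := by
    intro m
    rw [gm_smul_iterate _ hF, Pool.Agent.Helper26.FD.eval_smul_hom' (hGe.map _)]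
    have h1 : (gm (τ'.comp σ) F)^[m] (fun i => τ (α i)) = fun i => τ' ((gm σ F)^[m] α i) :=
      gm_comp_iterate σ τ' F m α
    have h2 : eval ((gm (τ'.comp σ) F)^[m] fun i => τ (α i)) (map τ' G) =
        τ' (eval ((gm σ F)^[m] α) G) := by
      rw [h1, eval_map]
      exact (eval₂_comp τ' ((gm σ F)^[m] α) G).symm
    rw [h2]
    constructor
    · intro h6
      rw [h6, map_zero, mul_zero]
    · intro h6
      exact (map_eq_zero_iff τ τ.injective).1
        ((mul_eq_zero.1 h6).resolve_left (pow_ne_zero _ (pow_ne_zero _ ht)))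
  simp only [hiff]
  exact h _ r

theorem isEndo {B k₀ : Type} [CommRing B] [Field k₀] (q : B →+* k₀)
    (hq : Function.Surjective q) (σ : B →+* ℂ) (τ : ℂ ≃+* PadicAlgCl p)
    (hψ : ∀ b, ‖τ (σ b)‖ ≤ 1) (hψq : ∀ b, q b = 0 → ‖τ (σ b)‖ < 1) {d : ℕ}
    (F : Fin n → MvPolynomial (Fin n) B) (hF : ∀ i, (F i).IsHomogeneous d)
    (hG : GoodF fun i => map q (F i)) (z : Fin n → ℂ) (hz : gm σ F z = 0) : z = 0 := by
  by_contra hne
  have hσ0 : (fun i => τ (z i)) ≠ 0 := by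
    intro h
    apply hne
    funext i
    exact (map_eq_zero τ).1 (congrFun h i)
  obtain ⟨i₀, t, ht, hnorm, hone⟩ := Pool.Agent.Helper26.FD.exists_primitive_vec hσ0
  let τ' : ℂ →+* PadicAlgCl p := τ
  let ψ' : B →+* Oc p :=
    { toFun := fun b => ⟨τ' (σ b), mem_Oc.2 (hψ b)⟩
      map_one' := Subtype.ext (by simp)
      map_mul' := fun x y => Subtype.ext (by simp)
      map_zero' := Subtype.ext (by simp)
      map_add' := fun x y => Subtype.ext (by simp) }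
  let π : Oc p →+* kk p := Ideal.Quotient.mk (mm p)
  obtain ⟨φ, hφ⟩ : ∃ φ : k₀ →+* kk p, φ.comp q = π.comp ψ' := by
    refine ⟨q.liftOfSurjective hq ⟨π.comp ψ', fun b hb => ?_⟩, ?_⟩
    · have h1 : ‖τ (σ b)‖ < 1 := hψq b hb
      exact Ideal.Quotient.eq_zero_iff_mem.2 h1
    · exact RingHom.liftOfRightInverse_comp _ _ _ _
  let y : Fin n → Oc p := fun i => ⟨t * τ (z i), mem_Oc.2 (hnorm i)⟩
  have h0 : gm ψ' F y = 0 := by
    have h1 : gm (τ'.comp σ) F (fun i => τ (z i)) = fun i => τ' (gm σ F z i) := gm_comp σ τ' F z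
    have h2 : gm (τ'.comp σ) F (fun i => t * τ (z i)) = fun i => t ^ d *
        gm (τ'.comp σ) F (fun i => τ (z i)) i := gm_smul _ hF t _
    have h3 : gm (((Oc p).val : Oc p →+* PadicAlgCl p).comp ψ') F (fun i => (y i : PadicAlgCl p)) =
      fun i => ((Oc p).val : Oc p →+* PadicAlgCl p) (gm ψ' F y i) := gm_comp ψ' _ F y
    funext i
    apply Subtype.val_injective
    have h4 := congrFun h3 i
    refine h4.symm.trans ?_
    have h5 : gm (((Oc p).val : Oc p →+* PadicAlgCl p).comp ψ') F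
        (fun i => (y i : PadicAlgCl p)) i = gm (τ'.comp σ) F (fun i => t * τ (z i)) i := rfl
    rw [h5, h2, h1, hz]
    simp
  have hne' : (fun i => π (y i)) ≠ 0 := by
    intro h
    have h2 := congrFun h i₀
    have h3 : y i₀ = 1 := Subtype.ext hone
    simp only [h3, map_one] at h2
    exact one_ne_zero h2
  apply (hG (kk p) φ _ hne').1
  rw [gm_map, hφ, gm_comp, h0]
  funext i
  exact map_zero _

/-- the dynamical Mordell-Lang conjecture for a self-map of the projective space given by `n`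
forms in `n` variables -/
def FullDML (f : (Fin n → ℂ) → Fin n → ℂ) : Prop :=
  ∀ α : Fin n → ℂ, α ≠ 0 → ∀ V : Set (MvPolynomial (Fin n) ℂ),
    (∀ G ∈ V, ∃ e : ℕ, G.IsHomogeneous e) → ∃ A : Finset (ℕ × ℕ),
      {k : ℕ | ∀ G ∈ V, eval (f^[k] α) G = 0} = {k | ∃ q ∈ A, ∃ j, k = q.1 + q.2 * j}

theorem fullDML (hp3 : 3 ≤ p) {B k₀ : Type} [CommRing B] [Field k₀] (q : B →+* k₀)
    (hq : Function.Surjective q) (σ : B →+* ℂ) (τ : ℂ ≃+* PadicAlgCl p)
    (hψ : ∀ b, ‖τ (σ b)‖ ≤ 1) (hψq : ∀ b, q b = 0 → ‖τ (σ b)‖ < 1) {d : ℕ}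
    (F : Fin n → MvPolynomial (Fin n) B) (hF : ∀ i, (F i).IsHomogeneous d)
    (hG : GoodF fun i => map q (F i)) : FullDML (gm σ F) := by
  intro α hα V hV
  obtain ⟨n₀, Q, hQ, h⟩ := etale_dml hp3 q hq σ τ hψ hψq F hF hG α hα
  refine Pool.Agent.Helper26.FD.ap_of_dich _ hQ (n₀ := n₀) fun r => ?_
  by_cases hall : ∀ G ∈ V, ∀ k, eval ((gm σ F)^[n₀ + r + Q * k] α) G = 0
  · right
    intro k G hGV
    exact hall G hGV k
  · left
    push Not at hall
    obtain ⟨G, hGV, k, hk⟩ := hall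
    obtain ⟨e, he⟩ := hV G hGV
    rcases h e G he r with h1 | h1
    · exact h1.subset fun k' hk' => hk' G hGV
    · exact absurd (h1 k) hk

open NumberField in
/-- number fields: good reduction modulo one prime suffices -/
theorem numberField_dml (hp3 : 3 ≤ p) {K : Type} [Field K] [NumberField K] (σ : K →+* ℂ)
    (P : Ideal (𝓞 K)) (hP : P.IsMaximal) (hpP : (p : 𝓞 K) ∈ P) {k₀ : Type} [Field k₀]
    (q : 𝓞 K →+* k₀) (hq : Function.Surjective q) (hqP : ∀ x, q x = 0 → x ∈ P) {d : ℕ}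
    (F : Fin n → MvPolynomial (Fin n) (𝓞 K)) (hF : ∀ i, (F i).IsHomogeneous d)
    (hG : GoodF fun i => map q (F i)) :
    FullDML (gm (σ.comp (algebraMap (𝓞 K) K)) F) ∧
      ∀ z, gm (σ.comp (algebraMap (𝓞 K) K)) F z = 0 → z = 0 := by
  obtain ⟨φ, hφ⟩ := exists_embedding P hP hpP
  have : Countable K := (Module.finBasis ℚ K).equivFun.injective.countable
  obtain ⟨τ, hτ⟩ := exists_iso_ext σ φ
  have h1 : ∀ b : 𝓞 K, ‖τ ((σ.comp (algebraMap (𝓞 K) K)) b)‖ ≤ 1 := by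
    intro b
    rw [RingHom.comp_apply, hτ]
    exact norm_le_one_of_ringOfIntegers φ b
  have h2 : ∀ b : 𝓞 K, q b = 0 → ‖τ ((σ.comp (algebraMap (𝓞 K) K)) b)‖ < 1 := by
    intro b hb
    rw [RingHom.comp_apply, hτ]
    exact hφ b (hqP b hb)
  exact ⟨fullDML hp3 q hq _ τ h1 h2 F hF hG, isEndo q hq _ τ h1 h2 F hF hG⟩

end

end Pool.Agent.Helper87.FK
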