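import Mathlib

/-!
# FK: the number of residue classes with prescribed reductions, and boxes
-/

set_option autoImplicit false

namespace Pool.Agent.Helper87.FK

open Finset

theorem card_preimage_mul {G H : Type*} [AddCommGroup G] [Fintype G] [AddCommGroup H] [Fintype H]
    [DecidableEq H] (f : G →+ H) (hf : Function.Surjective f) (U : Finset H) :
    (univ.filter fun g => f g ∈ U).card * Fintype.card H = Fintype.card G * U.card := by
  classical
  have h0 : ∀ y : H, (univ.filter fun g => f g = y).card =
      (univ.filter fun g => f g = 0).card := fun y =>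
    AddMonoidHom.card_fiber_eq_of_mem_range f (AddMonoidHom.mem_range.2 (hf y))
      (AddMonoidHom.mem_range.2 (hf 0))
  have h1 : ∀ V : Finset H, (univ.filter fun g => f g ∈ V).card =
      V.card * (univ.filter fun g => f g = 0).card := by
    intro V
    rw [card_eq_sum_card_fiberwise (s := univ.filter fun g => f g ∈ V) (f := f) (t := V)
      (fun g hg => (mem_filter.1 (mem_coe.1 hg)).2)]
    rw [← smul_eq_mul, ← sum_const]
    refine sum_congr rfl fun y hy => ?_
    rw [← h0 y, filter_filter]
    congr 1
    ext g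
    simp only [mem_filter, mem_univ, true_and]
    constructor
    · exact fun h => h.2
    · rintro rfl
      exact ⟨hy, rfl⟩
  have h2 := h1 univ
  have h3 : (univ.filter fun g => f g ∈ (univ : Finset H)) = univ := by
    ext g
    simp
  rw [h3, card_univ, card_univ] at h2
  rw [h1 U, h2]
  ring

theorem bad_card {G S : Type} [AddCommGroup G] [Fintype G] [Fintype S] {H : S → Type}
    [∀ s, AddCommGroup (H s)] [∀ s, Fintype (H s)] (f : ∀ s, G →+ H s)
    (hf : Function.Surjective fun g s => f s g) (t : ∀ s, H s)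
    [DecidablePred fun g => ∀ s, f s g ≠ t s] :
    ((univ.filter fun g => ∀ s, f s g ≠ t s).card : ℝ) =
      Fintype.card G * ∏ s, (1 - 1 / (Fintype.card (H s) : ℝ)) := by
  classical
  let F : G →+ ∀ s, H s := AddMonoidHom.pi f
  have hF : Function.Surjective F := hf
  have h1 := card_preimage_mul F hF (Fintype.piFinset fun s => univ.erase (t s))
  have h2 : (univ.filter fun g => F g ∈ Fintype.piFinset fun s => univ.erase (t s)) =
      univ.filter fun g => ∀ s, f s g ≠ t s := by
    ext g
    simp only [mem_filter, mem_univ, true_and, Fintype.mem_piFinset, mem_erase, and_true]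
    rfl
  rw [h2, Fintype.card_piFinset, Fintype.card_pi] at h1
  have h3 : ((univ.filter fun g => ∀ s, f s g ≠ t s).card : ℝ) *
      ∏ s, (Fintype.card (H s) : ℝ) = Fintype.card G * ∏ s, ((Fintype.card (H s) : ℝ) - 1) := by
    have h4 := congrArg (Nat.cast : ℕ → ℝ) h1
    push_cast at h4
    rw [h4]
    congr 1
    refine prod_congr rfl fun s _ => ?_
    rw [card_erase_of_mem (mem_univ _), card_univ, Nat.cast_sub Fintype.card_pos, Nat.cast_one]
  have hpos : ∀ s, (Fintype.card (H s) : ℝ) ≠ 0 := fun s =>
    Nat.cast_ne_zero.2 Fintype.card_ne_zero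
  have h5 : ∏ s, (1 - 1 / (Fintype.card (H s) : ℝ)) =
      (∏ s, ((Fintype.card (H s) : ℝ) - 1)) / ∏ s, (Fintype.card (H s) : ℝ) := by
    rw [← prod_div_distrib]
    refine prod_congr rfl fun s _ => ?_
    field_simp [hpos s]
  rw [h5, ← mul_div_assoc, ← h3, mul_div_assoc, div_self (prod_ne_zero_iff.2 fun s _ => hpos s),
    mul_one]

/-- integer points of a product of sets in residue classes -/
theorem pi_count {J : Type} [Fintype J] [DecidableEq J] {M : ℕ} [NeZero M] (S : J → Finset ℤ)
    (u : ℝ) (hu : 0 ≤ u)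
    (h : ∀ k (w : ZMod M), u / M * ((S k).card : ℝ) ≤
      (((S k).filter fun z : ℤ => (z : ZMod M) = w).card : ℝ)) (g : Finset (J → ZMod M)) :
    u ^ Fintype.card J * ((g.card : ℝ) / (M : ℝ) ^ Fintype.card J) *
      ((Fintype.piFinset S).card : ℝ) ≤
      (((Fintype.piFinset S).filter fun c => (fun k => ((c k : ℤ) : ZMod M)) ∈ g).card : ℝ) := by
  classical
  rw [card_eq_sum_card_fiberwise
    (s := (Fintype.piFinset S).filter fun c => (fun k => ((c k : ℤ) : ZMod M)) ∈ g)
    (f := fun c : J → ℤ => fun k => ((c k : ℤ) : ZMod M)) (t := g)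
    (fun c hc => (mem_filter.1 (mem_coe.1 hc)).2)]
  push_cast
  have h1 : ∀ w ∈ g, u ^ Fintype.card J / (M : ℝ) ^ Fintype.card J *
      ((Fintype.piFinset S).card : ℝ) ≤
      ((((Fintype.piFinset S).filter fun c => (fun k => ((c k : ℤ) : ZMod M)) ∈ g).filter
        fun c => (fun k => ((c k : ℤ) : ZMod M)) = w).card : ℝ) := by
    intro w hw
    have h2 : (((Fintype.piFinset S).filter fun c => (fun k => ((c k : ℤ) : ZMod M)) ∈ g).filter
        fun c => (fun k => ((c k : ℤ) : ZMod M)) = w) =
        Fintype.piFinset fun k => (S k).filter fun z : ℤ => (z : ZMod M) = w k := by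
      ext c
      simp only [mem_filter, Fintype.mem_piFinset]
      constructor
      · rintro ⟨⟨h3, -⟩, rfl⟩ k
        exact ⟨h3 k, rfl⟩
      · intro h3
        have h4 : (fun k => ((c k : ℤ) : ZMod M)) = w := funext fun k => (h3 k).2
        refine ⟨⟨fun k => (h3 k).1, ?_⟩, h4⟩
        rw [h4]
        exact hw
    rw [h2, Fintype.card_piFinset, Fintype.card_piFinset]
    push_cast
    have h5 : u ^ Fintype.card J / (M : ℝ) ^ Fintype.card J * ∏ k, ((S k).card : ℝ) =
        ∏ k, (u / M * ((S k).card : ℝ)) := by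
      rw [prod_mul_distrib, prod_const, card_univ, div_pow]
    rw [h5]
    exact prod_le_prod (fun k _ => by positivity) fun k _ => h k _
  refine le_trans (le_of_eq ?_) (sum_le_sum h1)
  rw [sum_const, nsmul_eq_mul]
  ring

end Pool.Agent.Helper87.FK
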