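import Mathlib
import Pool.Agent.Helper87.FK.Cls

/-!
# FK: integers of an interval in residue classes
-/

set_option autoImplicit false

namespace Pool.Agent.Helper87.FK

open Finset

/-- integers of `[a, b)` in residue classes -/
theorem count_class {a b v w : ℤ} {m M : ℕ} (hm : 1 ≤ m) (hM : 1 ≤ M) (hmM : m.Coprime M) {η : ℝ}
    (hη : 0 < η) (hη1 : η ≤ 1) (hab : 2 * ((m : ℝ) * M) / η ≤ (b : ℝ) - a) :
    (1 - η) / (M : ℝ) * (((Ico a b).filter fun z => (m : ℤ) ∣ z - v).card : ℝ) ≤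
      ((((Ico a b).filter fun z => (m : ℤ) ∣ z - v).filter fun z : ℤ =>
        (z : ZMod M) = (w : ZMod M)).card : ℝ) := by
  obtain ⟨u, hu1, hu2⟩ : ∃ u : ℤ, (m : ℤ) ∣ u - v ∧ (M : ℤ) ∣ u - w := by
    have hcop : IsCoprime (m : ℤ) (M : ℤ) := Nat.isCoprime_iff_coprime.2 hmM
    obtain ⟨r, s, hrs⟩ := hcop
    refine ⟨v + r * m * (w - v), ⟨r * (w - v), by ring⟩, ?_⟩
    refine ⟨-(s * (w - v)), ?_⟩
    linear_combination (w - v) * hrs
  have hS : ((Ico a b).filter fun z => (m : ℤ) ∣ z - v) =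
      (Ico a b).filter fun z => z ≡ v [ZMOD (m : ℤ)] := by
    refine filter_congr fun z _ => ?_
    rw [Int.modEq_comm, Int.modEq_iff_dvd]
  have hT : (((Ico a b).filter fun z => (m : ℤ) ∣ z - v).filter fun z : ℤ =>
      (z : ZMod M) = (w : ZMod M)) =
      (Ico a b).filter fun z => z ≡ u [ZMOD ((m * M : ℕ) : ℤ)] := by
    rw [filter_filter]
    refine filter_congr fun z _ => ?_
    rw [Int.modEq_comm, Int.modEq_iff_dvd, eq_comm, ZMod.intCast_eq_intCast_iff_dvd_sub]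
    constructor
    · rintro ⟨h1, h2⟩
      push_cast
      refine IsCoprime.mul_dvd (Nat.isCoprime_iff_coprime.2 hmM) ?_ ?_
      · have := dvd_sub h1 hu1
        rwa [show z - v - (u - v) = z - u by ring] at this
      · have := dvd_sub h2 hu2
        rwa [show z - w - (u - w) = z - u by ring] at this
    · intro h
      push_cast at h
      have h1 := dvd_add ((Dvd.intro _ rfl : (m : ℤ) ∣ (m : ℤ) * M).trans h) hu1
      have h2 := dvd_add ((Dvd.intro_left _ rfl : (M : ℤ) ∣ (m : ℤ) * M).trans h) hu2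
      rw [show z - u + (u - v) = z - v by ring] at h1
      rw [show z - u + (u - w) = z - w by ring] at h2
      exact ⟨h1, h2⟩
  have hm0 : (0 : ℤ) < m := by exact_mod_cast hm
  have hmM0 : (0 : ℤ) < ((m * M : ℕ) : ℤ) := by exact_mod_cast Nat.mul_pos hm hM
  have h1 := Int.Ico_filter_modEq_card a b (r := (m : ℤ)) hm0 v
  have h2 := Int.Ico_filter_modEq_card a b (r := ((m * M : ℕ) : ℤ)) hmM0 u
  rw [hT, hS]
  have hmR : (1 : ℝ) ≤ m := by exact_mod_cast hm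
  have hMR : (1 : ℝ) ≤ M := by exact_mod_cast hM
  have hmM1 : 0 < (m : ℝ) * M := by positivity
  set D : ℝ := (b : ℝ) - a with hDdef
  have hD0 : 0 ≤ D := le_trans (by positivity) hab
  have hS1 : (((Ico a b).filter fun z => z ≡ v [ZMOD (m : ℤ)]).card : ℝ) ≤ D / m + 1 := by
    have h3 : (((Ico a b).filter fun z => z ≡ v [ZMOD (m : ℤ)]).card : ℚ) ≤
        ((b : ℚ) - a) / m + 1 := by
      have h4 : ((((Ico a b).filter fun z => z ≡ v [ZMOD (m : ℤ)]).card : ℤ) : ℚ) =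
          ((max (⌈((b : ℚ) - v) / ((m : ℤ) : ℚ)⌉ - ⌈((a : ℚ) - v) / ((m : ℤ) : ℚ)⌉) 0 : ℤ) : ℚ) := by
        exact_mod_cast h1
      have hmQ : (0 : ℚ) < m := by exact_mod_cast hm
      have hnn : (0 : ℚ) ≤ ((b : ℚ) - a) / m := by
        have : (0 : ℚ) ≤ (b : ℚ) - a := by
          have h5 : (0 : ℝ) ≤ ((b - a : ℤ) : ℝ) := by push_cast; exact hD0
          have h6 : (0 : ℤ) ≤ b - a := by exact_mod_cast h5
          exact_mod_cast h6
        positivity
      have h5 := Int.ceil_lt_add_one (((b : ℚ) - v) / ((m : ℤ) : ℚ))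
      have h6 := Int.le_ceil (((a : ℚ) - v) / ((m : ℤ) : ℚ))
      have h7 : ((b : ℚ) - v) / ((m : ℤ) : ℚ) - ((a : ℚ) - v) / ((m : ℤ) : ℚ) =
          ((b : ℚ) - a) / m := by
        push_cast
        ring
      have h8 : (((Ico a b).filter fun z => z ≡ v [ZMOD (m : ℤ)]).card : ℚ) =
          ((((Ico a b).filter fun z => z ≡ v [ZMOD (m : ℤ)]).card : ℤ) : ℚ) := by norm_cast
      rw [h8, h4]
      rw [Int.cast_max]
      apply max_le
      · push_cast at h5 h6 h7 ⊢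
        linarith
      · push_cast
        linarith
    have h9 : ((((Ico a b).filter fun z => z ≡ v [ZMOD (m : ℤ)]).card : ℚ) : ℝ) ≤
        ((((b : ℚ) - a) / m + 1 : ℚ) : ℝ) := by exact_mod_cast h3
    push_cast at h9
    exact h9
  have hT1 : D / (m * M) - 1 ≤
      (((Ico a b).filter fun z => z ≡ u [ZMOD ((m * M : ℕ) : ℤ)]).card : ℝ) := by
    have h3 : ((b : ℚ) - a) / (m * M) - 1 ≤
        (((Ico a b).filter fun z => z ≡ u [ZMOD ((m * M : ℕ) : ℤ)]).card : ℚ) := by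
      have h4 : ((((Ico a b).filter fun z => z ≡ u [ZMOD ((m * M : ℕ) : ℤ)]).card : ℤ) : ℚ) =
          ((max (⌈((b : ℚ) - u) / (((m * M : ℕ) : ℤ) : ℚ)⌉ -
            ⌈((a : ℚ) - u) / (((m * M : ℕ) : ℤ) : ℚ)⌉) 0 : ℤ) : ℚ) := by
        exact_mod_cast h2
      have h5 := Int.ceil_lt_add_one (((a : ℚ) - u) / (((m * M : ℕ) : ℤ) : ℚ))
      have h6 := Int.le_ceil (((b : ℚ) - u) / (((m * M : ℕ) : ℤ) : ℚ))
      have h7 : ((b : ℚ) - u) / (((m * M : ℕ) : ℤ) : ℚ) - ((a : ℚ) - u) / (((m * M : ℕ) : ℤ) : ℚ) =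
          ((b : ℚ) - a) / (m * M) := by
        push_cast
        ring
      have h8 : (((Ico a b).filter fun z => z ≡ u [ZMOD ((m * M : ℕ) : ℤ)]).card : ℚ) =
          ((((Ico a b).filter fun z => z ≡ u [ZMOD ((m * M : ℕ) : ℤ)]).card : ℤ) : ℚ) := by
        norm_cast
      rw [h8, h4, Int.cast_max]
      refine le_max_of_le_left ?_
      push_cast at h5 h6 h7 ⊢
      linarith
    have h9 : ((((b : ℚ) - a) / (m * M) - 1 : ℚ) : ℝ) ≤
        ((((Ico a b).filter fun z => z ≡ u [ZMOD ((m * M : ℕ) : ℤ)]).card : ℚ) : ℝ) := by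
      exact_mod_cast h3
    push_cast at h9
    exact h9
  have hη2 : 0 ≤ (1 - η) / (M : ℝ) := div_nonneg (by linarith) (by positivity)
  refine le_trans (mul_le_mul_of_nonneg_left hS1 hη2) (le_trans ?_ hT1)
  have h10 : 2 ≤ η * (D / (m * M)) := by
    rw [← mul_div_assoc, le_div_iff₀ hmM1]
    rw [div_le_iff₀ hη] at hab
    linarith
  have h11 : (1 - η) / (M : ℝ) * (D / m + 1) = (1 - η) * (D / (m * M)) + (1 - η) / M := by
    field_simp
  rw [h11]
  have h12 : (1 - η) / (M : ℝ) ≤ 1 := by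
    rw [div_le_one (by positivity)]
    linarith
  linarith

/-- the count of one coefficient -/
theorem count_one {m M : ℕ} (hm : 1 ≤ m) (hM : 1 ≤ M) (hmM : m.Coprime M) {η : ℝ}
    (hη : 0 < η) (hη1 : η ≤ 1) {x e : ℝ} (v : ℤ) (he : 2 * ((m : ℝ) * M) / η + 2 ≤ 2 * e) :
    ∃ S : Finset ℤ, (∀ z : ℤ, z ∈ S ↔ |(z : ℝ) - x| ≤ e ∧ (m : ℤ) ∣ z - v) ∧
      ∀ w : ZMod M, (1 - η) / (M : ℝ) * (S.card : ℝ) ≤
        ((S.filter fun z : ℤ => (z : ZMod M) = w).card : ℝ) := by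
  refine ⟨(Ico ⌈x - e⌉ (⌊x + e⌋ + 1)).filter fun z => (m : ℤ) ∣ z - v, fun z => ?_, fun w => ?_⟩
  · rw [mem_filter, mem_Ico, Int.lt_add_one_iff, Int.ceil_le, Int.le_floor, abs_le]
    constructor
    · rintro ⟨⟨h1, h2⟩, h3⟩
      exact ⟨⟨by linarith, by linarith⟩, h3⟩
    · rintro ⟨⟨h1, h2⟩, h3⟩
      exact ⟨⟨by linarith, by linarith⟩, h3⟩
  · obtain ⟨w', rfl⟩ := ZMod.intCast_surjective w
    refine count_class hm hM hmM hη hη1 ?_
    have h1 := Int.ceil_lt_add_one (x - e)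
    have h2 := Int.lt_floor_add_one (x + e)
    push_cast
    linarith

end Pool.Agent.Helper87.FK
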