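import Mathlib
import Pool.Agent.Helper87.LD.Defs
import Pool.Agent.Helper87.FK.Defs

/-!
# FK: families of forms and their coefficients
-/

set_option autoImplicit false

namespace Pool.Agent.Helper87.FK

open MvPolynomial
open Pool.Agent.Helper87.LD (ex Idx form form_isHomogeneous map_form mem_ex)

noncomputable section

variable {n d : ℕ} {R : Type*} [CommRing R]

theorem coeff_form (c : Idx n d → R) (i : Fin n)
    (s : {s : Fin n →₀ ℕ // s ∈ ex n d}) : coeff s.1 (form c i) = c (i, s) := by
  classical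
  rw [form, coeff_sum]
  simp only [coeff_monomial]
  rw [Finset.sum_eq_single s]
  · simp
  · intro b _ hb
    rw [if_neg]
    intro h
    exact hb (Subtype.ext h)
  · intro h
    exact absurd (Finset.mem_univ _) h

theorem coeff_eq_zero_of_notMem {G : MvPolynomial (Fin n) R} (hG : G.IsHomogeneous d)
    {s : Fin n →₀ ℕ} (hs : s ∉ ex n d) : coeff s G = 0 := by
  refine hG.coeff_eq_zero ?_
  intro h
  rw [Finsupp.degree_eq_sum] at h
  exact hs (mem_ex.2 h)

theorem form_coeff (G : Fin n → MvPolynomial (Fin n) R) (hG : ∀ i, (G i).IsHomogeneous d) :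
    form (fun i : Idx n d => coeff i.2.1 (G i.1)) = G := by
  funext i
  ext s
  by_cases hs : s ∈ ex n d
  · exact coeff_form (fun i : Idx n d => coeff i.2.1 (G i.1)) i ⟨s, hs⟩
  · rw [coeff_eq_zero_of_notMem (form_isHomogeneous _ i) hs, coeff_eq_zero_of_notMem (hG i) hs]

theorem card_ex (N d : ℕ) : (ex (N + 1) d).card = (N + d).choose d := by
  rw [ex, Finset.card_finsuppAntidiag_nat_eq_choose, Finset.card_univ, Fintype.card_fin]
  congr 1
  omega

theorem card_Idx (N d : ℕ) : Fintype.card (Idx (N + 1) d) = (N + 1) * (N + d).choose d := by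
  rw [Fintype.card_prod, Fintype.card_fin, Fintype.card_coe, card_ex]

variable {ι : Type} [Fintype ι]

/-- the family of forms with the coefficients `c` -/
def fam (c : ι × Idx n d → ℤ) (j : ι) : Fin n → MvPolynomial (Fin n) ℤ :=
  form fun i => c (j, i)

theorem fam_injective : Function.Injective (fam (n := n) (d := d) (ι := ι)) := by
  intro c c' h
  funext ⟨j, i, s⟩
  have h1 := congrArg (coeff s.1) (congrFun (congrFun h j) i)
  rw [fam, fam, coeff_form, coeff_form] at h1
  exact h1

theorem fam_coeff (F : ι → Fin n → MvPolynomial (Fin n) ℤ) (hF : ∀ j i, (F j i).IsHomogeneous d) :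
    fam (fun k : ι × Idx n d => coeff k.2.2.1 (F k.1 k.2.1)) = F :=
  funext fun j => form_coeff (F j) (hF j)

/-- the forms `∑ eⱼ Fⱼ` over a ring `R` -/
def comb (e : ι → R) (F : ι → Fin n → MvPolynomial (Fin n) ℤ) (i : Fin n) :
    MvPolynomial (Fin n) R :=
  ∑ j, C (e j) * map (Int.castRingHom R) (F j i)

theorem comb_fam (e : ι → R) (c : ι × Idx n d → ℤ) :
    comb e (fam c) = form fun i => ∑ j, e j * (c (j, i) : R) := by
  funext i
  have h1 : ∀ j, C (e j) * map (Int.castRingHom R) (fam c j i) =
      ∑ s : {s : Fin n →₀ ℕ // s ∈ ex n d}, monomial s.1 (e j * (c (j, i, s) : R)) := by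
    intro j
    rw [fam, map_form, form, Finset.mul_sum]
    refine Finset.sum_congr rfl fun s _ => ?_
    rw [C_mul_monomial]
    rfl
  rw [comb, Finset.sum_congr rfl fun j _ => h1 j, Finset.sum_comm, form]
  refine Finset.sum_congr rfl fun s _ => ?_
  rw [map_sum]

theorem map_comb {S : Type*} [CommRing S] (φ : R →+* S) (e : ι → R)
    (F : ι → Fin n → MvPolynomial (Fin n) ℤ) (i : Fin n) :
    map φ (comb e F i) = comb (fun j => φ (e j)) F i := by
  rw [comb, comb, map_sum]
  refine Finset.sum_congr rfl fun j _ => ?_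
  have h1 : φ.comp (Int.castRingHom R) = Int.castRingHom S := RingHom.ext_int _ _
  rw [map_mul, map_C, map_map, h1]

theorem comb_isHomogeneous (e : ι → R) {F : ι → Fin n → MvPolynomial (Fin n) ℤ}
    (hF : ∀ j i, (F j i).IsHomogeneous d) (i : Fin n) : (comb e F i).IsHomogeneous d := by
  refine IsHomogeneous.sum _ _ _ fun j _ => ?_
  have h1 := (isHomogeneous_C (Fin n) (e j)).mul ((hF j i).map (Int.castRingHom R))
  rwa [zero_add] at h1

end

end Pool.Agent.Helper87.FK
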