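import Mathlib
import Pool.Agent.Helper87.FK.Box
import Pool.Agent.Helper87.FK.Form

/-!
# FK: counting the families whose reduction modulo some prime of `S` is prescribed
-/

set_option autoImplicit false

namespace Pool.Agent.Helper87.FK

open MvPolynomial NumberField
open Pool.Agent.Helper87.LD (ex Idx form form_isHomogeneous map_form mem_ex)

noncomputable section

/-- the box -/
def kbox {ι : Type} (N d m : ℕ) (A : ι → Fin (N + 1) → MvPolynomial (Fin (N + 1)) ℝ) (ε : ℝ)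
    (F₀ : ι → Fin (N + 1) → MvPolynomial (Fin (N + 1)) ℤ) (B : ℕ) :
    Set (ι → Fin (N + 1) → MvPolynomial (Fin (N + 1)) ℤ) :=
  {F | ∀ j i, (F j i).IsHomogeneous d ∧
    ∀ s, |((coeff s (F j i) : ℤ) : ℝ) - B * coeff s (A j i)| ≤ ε * B ∧
      (m : ℤ) ∣ coeff s (F j i) - coeff s (F₀ j i)}

/-- the primes which are used -/
def Adm {K : Type} [Field K] [NumberField K] (d m : ℕ) (P : Ideal (𝓞 K)) : Prop :=
  P.IsPrime ∧ Ideal.absNorm P ≡ 1 [MOD d] ∧ (Ideal.absNorm P).Coprime (2 * m)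

section adm

variable {K : Type} [Field K] [NumberField K] {d m : ℕ} {P : Ideal (𝓞 K)}

theorem Adm.absNorm_ne_zero (h : Adm d m P) (hd : 2 ≤ d) : Ideal.absNorm P ≠ 0 := by
  intro h0
  have h1 := h.2.1
  rw [h0] at h1
  have h2 : d ∣ 1 := by
    have := (Nat.modEq_iff_dvd' (Nat.zero_le 1)).1 h1
    simpa using this
  have := Nat.dvd_one.1 h2
  omega

theorem Adm.ne_bot (h : Adm d m P) (hd : 2 ≤ d) : P ≠ ⊥ := by
  intro h0
  apply h.absNorm_ne_zero hd
  rw [h0, Ideal.absNorm_bot]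

theorem Adm.isMaximal (h : Adm d m P) (hd : 2 ≤ d) : P.IsMaximal :=
  h.1.isMaximal (h.ne_bot hd)

theorem Adm.card (h : Adm d m P) : Nat.card (𝓞 K ⧸ P) = Ideal.absNorm P := by
  rw [Ideal.absNorm_apply, Submodule.cardQuot_apply]

theorem Adm.finite (h : Adm d m P) (hd : 2 ≤ d) : Finite (𝓞 K ⧸ P) :=
  Nat.finite_of_card_ne_zero (by rw [h.card]; exact h.absNorm_ne_zero hd)

theorem Adm.exists_prime (h : Adm d m P) (hd : 2 ≤ d) :
    ∃ p : ℕ, p.Prime ∧ 3 ≤ p ∧ (p : 𝓞 K) ∈ P := by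
  have hmax := h.isMaximal hd
  let := Ideal.Quotient.field P
  have := h.finite hd
  have := Fintype.ofFinite (𝓞 K ⧸ P)
  obtain ⟨p, hp⟩ := CharP.exists (𝓞 K ⧸ P)
  obtain ⟨n, hpp, hcard⟩ := FiniteField.card (𝓞 K ⧸ P) p
  have h1 : p ∣ Ideal.absNorm P := by
    rw [← h.card, Nat.card_eq_fintype_card, hcard]
    exact dvd_pow_self _ n.ne_zero
  refine ⟨p, hpp, ?_, ?_⟩
  · have h2 := hpp.two_le
    have h3 : p ≠ 2 := by
      rintro rfl
      have h4 : 2 ∣ Nat.gcd (Ideal.absNorm P) (2 * m) := Nat.dvd_gcd h1 (dvd_mul_right 2 m)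
      rw [h.2.2.gcd_eq_one] at h4
      omega
    omega
  · rw [← Ideal.Quotient.eq_zero_iff_mem, map_natCast]
    exact CharP.cast_eq_zero _ _

end adm

section main

variable (N d m : ℕ) (K : Type) [Field K] [NumberField K] {ι : Type} [Fintype ι]
  (e : Module.Basis ι ℤ (𝓞 K))

/-- the reduction of the coefficients modulo `P` -/
def redP (M : ℕ) (P : Ideal (𝓞 K)) (hM : (M : 𝓞 K ⧸ P) = 0) :
    (ι × Idx (N + 1) d → ZMod M) →+ (Idx (N + 1) d → 𝓞 K ⧸ P) where
  toFun g x := ∑ j, Ideal.Quotient.mk P (e j) *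
    ZMod.lift M ⟨Int.castAddHom (𝓞 K ⧸ P), by simpa using hM⟩ (g (j, x))
  map_zero' := by
    funext x
    simp
  map_add' g h := by
    funext x
    simp [mul_add, Finset.sum_add_distrib]

theorem redP_intCast (M : ℕ) (P : Ideal (𝓞 K)) (hM : (M : 𝓞 K ⧸ P) = 0)
    (c : ι × Idx (N + 1) d → ℤ) (x : Idx (N + 1) d) :
    redP N d K e M P hM (fun k => (c k : ZMod M)) x =
      Ideal.Quotient.mk P (∑ j, e j * (c (j, x) : 𝓞 K)) := by
  show ∑ j, Ideal.Quotient.mk P (e j) *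
    ZMod.lift M ⟨Int.castAddHom (𝓞 K ⧸ P), by simpa using hM⟩ ((c (j, x) : ℤ) : ZMod M) = _
  rw [map_sum]
  refine Finset.sum_congr rfl fun j _ => ?_
  rw [ZMod.lift_coe, map_mul, map_intCast]
  rfl

theorem fk_count (hd : 2 ≤ d) (hm : 1 ≤ m)
    (S : Finset (Ideal (𝓞 K))) (hS : ∀ P ∈ S, Adm d m P)
    (Fb : ∀ P : Ideal (𝓞 K), Fin (N + 1) → MvPolynomial (Fin (N + 1)) (𝓞 K ⧸ P))
    (hFb : ∀ P ∈ S, ∀ i, (Fb P i).IsHomogeneous d)
    (A : ι → Fin (N + 1) → MvPolynomial (Fin (N + 1)) ℝ) (ε : ℝ)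
    (F₀ : ι → Fin (N + 1) → MvPolynomial (Fin (N + 1)) ℤ) (hA : ∀ j i, (A j i).IsHomogeneous d)
    (hε : 0 < ε) (hF₀ : ∀ j i, (F₀ j i).IsHomogeneous d) (η : ℝ) (hη : 0 < η) :
    ∃ B₀ : ℕ, ∀ B : ℕ, B₀ ≤ B → (kbox N d m A ε F₀ B).Finite ∧
      (1 - ∏ P ∈ S, (1 - 1 / (Ideal.absNorm P : ℝ) ^ ((N + 1) * (N + d).choose d)) - η) *
        ((kbox N d m A ε F₀ B).ncard : ℝ) ≤
      (({F ∈ kbox N d m A ε F₀ B | ∃ P ∈ S, ∀ i, map (Ideal.Quotient.mk P)
        (comb (fun j => (e j : 𝓞 K)) F i) = Fb P i}).ncard : ℝ) := by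
  classical
  have hmax : ∀ P : S, (P : Ideal (𝓞 K)).IsMaximal := fun P => (hS P P.2).isMaximal hd
  have hfin : ∀ P : S, Finite (𝓞 K ⧸ (P : Ideal (𝓞 K))) := fun P => (hS P P.2).finite hd
  have hft : ∀ P : S, Fintype (𝓞 K ⧸ (P : Ideal (𝓞 K))) := fun P => Fintype.ofFinite _
  -- the modulus
  let M : ℕ := ∏ P ∈ S, Ideal.absNorm P
  have hM0 : M ≠ 0 := Finset.prod_ne_zero_iff.2 fun P hP => (hS P hP).absNorm_ne_zero hd
  have hM1 : 1 ≤ M := Nat.one_le_iff_ne_zero.2 hM0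
  have : NeZero M := ⟨hM0⟩
  have hmM : m.Coprime M := Nat.Coprime.prod_right fun P hP =>
    (Nat.Coprime.coprime_mul_left_right (hS P hP).2.2).symm
  have hMP : ∀ P : S, (M : 𝓞 K ⧸ (P : Ideal (𝓞 K))) = 0 := by
    intro P
    have h1 : (Ideal.absNorm (P : Ideal (𝓞 K)) : 𝓞 K) ∈ (P : Ideal (𝓞 K)) := Ideal.absNorm_mem _
    have h2 : (M : 𝓞 K) ∈ (P : Ideal (𝓞 K)) := by
      have h3 : M = Ideal.absNorm (P : Ideal (𝓞 K)) * ∏ Q ∈ S.erase P, Ideal.absNorm Q :=
        (Finset.mul_prod_erase S _ P.2).symm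
      rw [h3]
      push_cast
      exact (P : Ideal (𝓞 K)).mul_mem_right _ h1
    have h4 := Ideal.Quotient.eq_zero_iff_mem.2 h2
    rwa [map_natCast] at h4
  -- the residue classes
  let H : S → Type := fun P => Idx (N + 1) d → 𝓞 K ⧸ (P : Ideal (𝓞 K))
  let f : ∀ P : S, (ι × Idx (N + 1) d → ZMod M) →+ H P := fun P => redP N d K e M P.1 (hMP P)
  have hf : ∀ (P : S) (c : ι × Idx (N + 1) d → ℤ) (x : Idx (N + 1) d),
      f P (fun k => (c k : ZMod M)) x =
        Ideal.Quotient.mk (P : Ideal (𝓞 K)) (∑ j, e j * (c (j, x) : 𝓞 K)) := fun P c x =>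
    redP_intCast N d K e M P.1 (hMP P) c x
  have hsurj : Function.Surjective fun g P => f P g := by
    intro y
    have h1 : ∀ x : Idx (N + 1) d, ∃ r : 𝓞 K, ∀ P : S,
        Ideal.Quotient.mk (P : Ideal (𝓞 K)) r = y P x := by
      intro x
      choose z hz using fun P : S => Ideal.Quotient.mk_surjective (y P x)
      obtain ⟨r, hr⟩ := IsDedekindDomain.exists_forall_sub_mem_ideal (s := S) (fun P => P)
        (fun _ => 1) (fun P hP => Ideal.prime_of_isPrime ((hS P hP).ne_bot hd) (hS P hP).1)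
        (fun P _ Q _ h => h) z
      refine ⟨r, fun P => ?_⟩
      have h2 := hr P.1 P.2
      rw [pow_one] at h2
      rw [← hz P, Ideal.Quotient.eq]
      exact h2
    choose r hr using h1
    refine ⟨fun k => ((e.repr (r k.2) k.1 : ℤ) : ZMod M), ?_⟩
    funext P x
    have h3 := hf P (fun k => e.repr (r k.2) k.1) x
    refine h3.trans ?_
    rw [← hr x P]
    congr 1
    have h4 := e.sum_repr (r x)
    simp only [zsmul_eq_mul] at h4
    conv_rhs => rw [← h4]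
    exact Finset.sum_congr rfl fun j _ => mul_comm _ _
  let t : ∀ P : S, H P := fun P x => coeff x.2.1 (Fb P.1 x.1)
  have hbad := bad_card f hsurj t
  let g : Finset (ι × Idx (N + 1) d → ZMod M) := Finset.univ.filter fun g => ¬ ∀ P, f P g ≠ t P
  set D : ℕ := (N + 1) * (N + d).choose d with hD
  set Pr : ℝ := ∏ P ∈ S, (1 - 1 / (Ideal.absNorm P : ℝ) ^ D) with hPr
  have hprod : ∏ P : S, (1 - 1 / (Fintype.card (H P) : ℝ)) = Pr := by
    rw [hPr, ← Finset.prod_coe_sort S]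
    refine Finset.prod_congr rfl fun P _ => ?_
    have h1 : Fintype.card (H P) = Ideal.absNorm (P : Ideal (𝓞 K)) ^ D := by
      rw [Fintype.card_fun, card_Idx, ← Nat.card_eq_fintype_card, (hS P P.2).card]
    rw [h1]
    push_cast
    rfl
  set J : ℕ := Fintype.card (ι × Idx (N + 1) d) with hJ
  have hgcard : (g.card : ℝ) / (M : ℝ) ^ J = 1 - Pr := by
    have h1 : (Finset.univ.filter fun g : ι × Idx (N + 1) d → ZMod M => ∀ P, f P g ≠ t P).card +
        g.card = Fintype.card (ι × Idx (N + 1) d → ZMod M) := by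
      rw [← Finset.card_univ]
      exact Finset.card_filter_add_card_filter_not _
    have h2 : Fintype.card (ι × Idx (N + 1) d → ZMod M) = M ^ J := by
      rw [Fintype.card_fun, ZMod.card]
    have h3 : (M : ℝ) ^ J ≠ 0 := pow_ne_zero _ (Nat.cast_ne_zero.2 hM0)
    rw [hprod] at hbad
    have h4 := congrArg (Nat.cast : ℕ → ℝ) h1
    push_cast at h4
    rw [hbad, h2] at h4
    push_cast at h4
    field_simp
    linarith
  have hPr0 : 0 ≤ Pr := Finset.prod_nonneg fun P hP => by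
    have h1 : (1 : ℝ) ≤ (Ideal.absNorm P : ℝ) ^ D := one_le_pow₀ (by
      exact_mod_cast Nat.one_le_iff_ne_zero.2 ((hS P hP).absNorm_ne_zero hd))
    rw [sub_nonneg, div_le_one (by linarith)]
    exact h1
  have hPr1 : Pr ≤ 1 := Finset.prod_le_one (fun P hP => by
    have h1 : (1 : ℝ) ≤ (Ideal.absNorm P : ℝ) ^ D := one_le_pow₀ (by
      exact_mod_cast Nat.one_le_iff_ne_zero.2 ((hS P hP).absNorm_ne_zero hd))
    rw [sub_nonneg, div_le_one (by linarith)]
    exact h1) fun P _ => by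
      have : (0 : ℝ) ≤ 1 / (Ideal.absNorm P : ℝ) ^ D := by positivity
      linarith
  -- the number `η`
  set η' : ℝ := min 1 (η / (J + 1)) with hη'
  have hη'0 : 0 < η' := lt_min one_pos (by positivity)
  have hη'1 : η' ≤ 1 := min_le_left _ _
  have hη'2 : J * η' ≤ η := by
    have h1 : η' ≤ η / (J + 1) := min_le_right _ _
    have h2 : (J + 1 : ℝ) * η' ≤ η := by
      rw [le_div_iff₀ (by positivity)] at h1
      linarith
    nlinarith
  have hpow : 1 - Pr - η ≤ (1 - η') ^ J * (1 - Pr) := by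
    have h1 : 1 - J * η' ≤ (1 - η') ^ J := by
      have := one_add_mul_le_pow (a := -η') (by linarith) J
      simpa [sub_eq_add_neg] using this
    have h2 : (1 - J * η') * (1 - Pr) ≤ (1 - η') ^ J * (1 - Pr) :=
      mul_le_mul_of_nonneg_right h1 (by linarith)
    nlinarith
  -- the bound for `B`
  obtain ⟨B₀, hB₀⟩ := exists_nat_ge ((2 * ((m : ℝ) * M) / η' + 2) / (2 * ε))
  refine ⟨B₀, fun B hB => ?_⟩
  have hBR : 2 * ((m : ℝ) * M) / η' + 2 ≤ 2 * (ε * B) := by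
    have h1 : (2 * ((m : ℝ) * M) / η' + 2) / (2 * ε) ≤ B := hB₀.trans (by exact_mod_cast hB)
    rw [div_le_iff₀ (by positivity)] at h1
    linarith
  choose Sk hSk hScard using fun k : ι × Idx (N + 1) d => count_one (m := m) (M := M) hm hM1 hmM
    hη'0 hη'1 (x := B * coeff k.2.2.1 (A k.1 k.2.1)) (e := ε * B)
    (coeff k.2.2.1 (F₀ k.1 k.2.1)) hBR
  have hcb : kbox N d m A ε F₀ B = fam ''
      ((Fintype.piFinset Sk : Finset (ι × Idx (N + 1) d → ℤ)) : Set (ι × Idx (N + 1) d → ℤ)) := by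
    ext F
    constructor
    · intro h
      refine ⟨fun k => coeff k.2.2.1 (F k.1 k.2.1), ?_, fam_coeff F fun j i => (h j i).1⟩
      rw [Finset.mem_coe, Fintype.mem_piFinset]
      intro k
      rw [hSk]
      exact (h k.1 k.2.1).2 _
    · rintro ⟨c, hc, rfl⟩ j i
      rw [Finset.mem_coe, Fintype.mem_piFinset] at hc
      refine ⟨form_isHomogeneous _ i, fun s => ?_⟩
      by_cases hs : s ∈ ex (N + 1) d
      · have h1 : coeff s (fam c j i) = c (j, i, ⟨s, hs⟩) :=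
          coeff_form (fun i => c (j, i)) i ⟨s, hs⟩
        rw [h1]
        exact (hSk (j, i, ⟨s, hs⟩) _).1 (hc _)
      · have h1 : coeff s (fam c j i) = 0 := coeff_eq_zero_of_notMem (form_isHomogeneous _ i) hs
        rw [h1, coeff_eq_zero_of_notMem (hA j i) hs, coeff_eq_zero_of_notMem (hF₀ j i) hs]
        simp only [Int.cast_zero, mul_zero, sub_zero, abs_zero, dvd_zero, and_true]
        positivity
  have hfinb : (kbox N d m A ε F₀ B).Finite := by
    rw [hcb]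
    exact (Finset.finite_toSet _).image _
  refine ⟨hfinb, ?_⟩
  have hcount := pi_count Sk (1 - η') (by linarith) hScard g
  rw [← hJ, hgcard] at hcount
  have hbc : ((kbox N d m A ε F₀ B).ncard : ℝ) = ((Fintype.piFinset Sk).card : ℝ) := by
    rw [hcb, Set.ncard_image_of_injective _ fam_injective, Set.ncard_coe_finset]
  rw [hbc]
  refine (mul_le_mul_of_nonneg_right hpow (Nat.cast_nonneg _)).trans (hcount.trans ?_)
  rw [← Set.ncard_coe_finset, Nat.cast_le, ← Set.ncard_image_of_injective _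
    (fam_injective (n := N + 1) (d := d) (ι := ι))]
  refine Set.ncard_le_ncard ?_ (hfinb.subset fun F hF => hF.1)
  rintro _ ⟨c, hc, rfl⟩
  rw [Finset.mem_coe, Finset.mem_filter] at hc
  obtain ⟨hc1, hc2⟩ := hc
  have hmem : fam c ∈ kbox N d m A ε F₀ B := by
    rw [hcb]
    exact ⟨c, Finset.mem_coe.2 hc1, rfl⟩
  refine ⟨hmem, ?_⟩
  obtain ⟨P, hP⟩ : ∃ P, f P (fun k => ((c k : ℤ) : ZMod M)) = t P := by
    have h1 := (Finset.mem_filter.1 hc2).2
    push Not at h1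
    exact h1
  refine ⟨P.1, P.2, ?_⟩
  have h1 : comb (fun j => (e j : 𝓞 K)) (fam c) = form fun x => ∑ j, e j * (c (j, x) : 𝓞 K) :=
    comb_fam _ c
  intro i
  rw [h1, map_form]
  have h2 : (fun x => Ideal.Quotient.mk (P : Ideal (𝓞 K)) (∑ j, e j * (c (j, x) : 𝓞 K))) =
      t P := by
    funext x
    rw [← hf P c x, hP]
  rw [h2]
  exact congrFun (form_coeff (Fb P.1) (hFb P.1 P.2)) i

end main

end

end Pool.Agent.Helper87.FK
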