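import Mathlib
import Pool.Agent.Helper87.FK.Defs
import Pool.Agent.Helper87.FK.Sym3

/-!
# FK: forms without periodic critical points over a finite field with a primitive `d`-th root of
unity
-/

set_option autoImplicit false

namespace Pool.Agent.Helper87.FK

open Polynomial Function

noncomputable section

theorem good_sym {N d : ℕ} {k₀ : Type} [Field k₀] (hd : 2 ≤ d) {w : k₀} (hw : IsPrimitiveRoot w d)
    (hdk : (d : k₀) ≠ 0) : GoodF (Fb N d (1 - w)) := by
  intro k _ φ x hx
  have hd0 : 0 < d := by omega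
  have hw1 : w ≠ 1 := by
    rintro rfl
    have := hw.eq_orderOf
    rw [orderOf_one] at this
    omega
  have hc : (1 - w) ≠ 0 := fun h => hw1 (sub_eq_zero.1 h).symm
  have h1 : (1 - (1 - w)) ^ d = 1 := by rw [sub_sub_cancel, hw.pow_eq_one]
  have hf : gm φ (Fb N d (1 - w)) = FK N d (1 - w) φ := rfl
  refine ⟨by rw [hf]; exact FK_ne_zero hw hd0 hc hx, ?_⟩
  intro m' hm' hper hdet
  let K := AlgebraicClosure k
  let j : k →+* K := algebraMap k K
  rw [hf] at hper
  have hj : ∀ x : Fin (N + 1) → k, (fun i => j (FK N d (1 - w) φ x i)) =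
      FK N d (1 - w) (j.comp φ) (fun i => j (x i)) := by
    intro x
    funext i
    exact MvPolynomial.map_eval₂Hom φ x j (Fb N d (1 - w) i)
  have hjit : ∀ n : ℕ, ∀ x : Fin (N + 1) → k,
      (FK N d (1 - w) (j.comp φ))^[n] (fun i => j (x i)) =
        fun i => j (((FK N d (1 - w) φ)^[n] x) i) := by
    intro n
    induction n with
    | zero => intro x; rfl
    | succ n ih =>
      intro x
      rw [iterate_succ_apply, iterate_succ_apply, ← hj, ih]
  have hper' : (FK N d (1 - w) (j.comp φ))^[m'] (fun i => j (x i)) = fun i => j (x i) := by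
    rw [hjit, hper]
  have hx' : (fun i => j (x i)) ≠ 0 := by
    intro h
    apply hx
    funext i
    exact (map_eq_zero j).1 (congrFun h i)
  have hdK : (d : K) ≠ 0 := by
    have h2 : (j.comp φ) (d : k₀) = (d : K) := map_natCast _ _
    rw [← h2]
    exact (_root_.map_ne_zero _).2 hdk
  apply jac_ne_zero (φ := j.comp φ) hw hd0 hdK hc h1 hx' hm' hper'
  have h5 : (Matrix.of fun i j' => MvPolynomial.eval₂Hom (j.comp φ) (fun i => j (x i))
      (MvPolynomial.pderiv j' (Fb N d (1 - w) i))) = j.mapMatrix (Matrix.of fun i j' =>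
        MvPolynomial.eval₂Hom φ x (MvPolynomial.pderiv j' (Fb N d (1 - w) i))) := by
    ext a b
    rw [RingHom.mapMatrix_apply, Matrix.map_apply, Matrix.of_apply, Matrix.of_apply]
    exact (MvPolynomial.map_eval₂Hom φ x j _).symm
  rw [h5, ← RingHom.map_det, hdet, map_zero]

theorem exists_primitive {k₀ : Type} [Field k₀] [Finite k₀] {d : ℕ}
    (h : d ∣ Nat.card k₀ - 1) : ∃ w : k₀, IsPrimitiveRoot w d := by
  have := Fintype.ofFinite k₀
  classical
  obtain ⟨u, hu⟩ := IsCyclic.exists_ofOrder_eq_natCard (α := k₀ˣ)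
  rw [Nat.card_eq_fintype_card, Fintype.card_units, ← Nat.card_eq_fintype_card] at hu
  obtain ⟨k, hk⟩ := h
  have hp1 : 0 < Nat.card k₀ - 1 := by
    have := Finite.one_lt_card (α := k₀)
    omega
  refine ⟨((u ^ k : k₀ˣ) : k₀), ?_⟩
  rw [IsPrimitiveRoot.coe_units_iff]
  have h1 : IsPrimitiveRoot u (Nat.card k₀ - 1) := hu ▸ IsPrimitiveRoot.orderOf u
  exact h1.pow hp1 (by rw [hk, mul_comm])

/-- for a finite field with `q ≡ 1` modulo `d` elements there are good forms of degree `d` -/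
theorem exists_good (N d : ℕ) (hd : 2 ≤ d) (k₀ : Type) [Field k₀] [Finite k₀]
    (h : d ∣ Nat.card k₀ - 1) : ∃ F : Fin (N + 1) → MvPolynomial (Fin (N + 1)) k₀,
      (∀ i, (F i).IsHomogeneous d) ∧ GoodF F := by
  obtain ⟨w, hw⟩ := exists_primitive h
  refine ⟨Fb N d (1 - w), Fb_hom hw, good_sym hd hw ?_⟩
  have := Fintype.ofFinite k₀
  obtain ⟨p, hp⟩ := CharP.exists k₀
  have := hp
  intro h0
  rw [CharP.cast_eq_zero_iff k₀ p] at h0
  obtain ⟨n, hpp, hcard⟩ := FiniteField.card k₀ p
  have h1 : p ∣ Nat.card k₀ - 1 := h0.trans h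
  have h2 : p ∣ Nat.card k₀ := by
    rw [Nat.card_eq_fintype_card, hcard]
    exact dvd_pow_self _ n.ne_zero
  have h3 : 1 < Nat.card k₀ := Finite.one_lt_card
  have h4 : p ∣ 1 := by
    have := Nat.dvd_sub h2 h1
    rwa [show Nat.card k₀ - (Nat.card k₀ - 1) = 1 by omega] at this
  exact hpp.one_lt.ne' (Nat.dvd_one.1 h4)

end

end Pool.Agent.Helper87.FK
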