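import Mathlib
import Pool.Agent.Helper87.FK.Cpx
import Pool.Agent.Helper87.FK.Sym4
import Pool.Agent.Helper87.FK.Count

/-!
# FK: assembly
-/

set_option autoImplicit false

namespace Pool.Agent.Helper87.FK

open MvPolynomial NumberField

noncomputable section

section main

variable (N d m : ℕ) (K : Type) [Field K] [NumberField K] {ι : Type} [Fintype ι]
  (e : Module.Basis ι ℤ (𝓞 K))

/-- good forms modulo an admissible prime -/
theorem exists_good_form {N d m : ℕ} {K : Type} [Field K] [NumberField K] (hd : 2 ≤ d)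
    {P : Ideal (𝓞 K)} (hP : Adm d m P) :
    ∃ F : Fin (N + 1) → MvPolynomial (Fin (N + 1)) (𝓞 K ⧸ P), (∀ i, (F i).IsHomogeneous d) ∧
      ∀ _ : P.IsMaximal, @GoodF (N + 1) (𝓞 K ⧸ P) (Ideal.Quotient.field P) F := by
  have hmax := hP.isMaximal hd
  have hfin := hP.finite hd
  let := Ideal.Quotient.field P
  obtain ⟨F, hF, hG⟩ := exists_good N d hd (𝓞 K ⧸ P) (by
    rw [hP.card]
    exact (Nat.modEq_iff_dvd' (Nat.one_le_iff_ne_zero.2 (hP.absNorm_ne_zero hd))).1 hP.2.1.symm)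
  exact ⟨F, hF, fun _ => hG⟩

/-- good forms modulo all admissible primes -/
theorem exists_good_forms {N d m : ℕ} {K : Type} [Field K] [NumberField K] (hd : 2 ≤ d)
    (S : Finset (Ideal (𝓞 K))) (hS : ∀ P ∈ S, Adm d m P) :
    ∃ Fb : ∀ P : Ideal (𝓞 K), Fin (N + 1) → MvPolynomial (Fin (N + 1)) (𝓞 K ⧸ P),
      (∀ P ∈ S, ∀ i, (Fb P i).IsHomogeneous d) ∧
      ∀ P ∈ S, ∀ _ : P.IsMaximal, @GoodF (N + 1) (𝓞 K ⧸ P) (Ideal.Quotient.field P) (Fb P) := by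
  classical
  have h : ∀ P : Ideal (𝓞 K), ∃ F : Fin (N + 1) → MvPolynomial (Fin (N + 1)) (𝓞 K ⧸ P),
      P ∈ S → (∀ i, (F i).IsHomogeneous d) ∧
        ∀ _ : P.IsMaximal, @GoodF (N + 1) (𝓞 K ⧸ P) (Ideal.Quotient.field P) F := by
    intro P
    by_cases hP : P ∈ S
    · obtain ⟨F, h1, h2⟩ := exists_good_form (N := N) hd (hS P hP)
      exact ⟨F, fun _ => ⟨h1, h2⟩⟩
    · exact ⟨0, fun h => absurd h hP⟩
  choose Fb hFb using h
  exact ⟨Fb, fun P hP => (hFb P hP).1, fun P hP => (hFb P hP).2⟩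

theorem fk_main (hd : 2 ≤ d) (hm : 1 ≤ m) (σ : K →+* ℂ)
    (S : Finset (Ideal (𝓞 K))) (hS : ∀ P ∈ S, Adm d m P)
    (A : ι → Fin (N + 1) → MvPolynomial (Fin (N + 1)) ℝ) (ε : ℝ)
    (F₀ : ι → Fin (N + 1) → MvPolynomial (Fin (N + 1)) ℤ) (hA : ∀ j i, (A j i).IsHomogeneous d)
    (hε : 0 < ε) (hF₀ : ∀ j i, (F₀ j i).IsHomogeneous d) (η : ℝ) (hη : 0 < η) :
    ∃ B₀ : ℕ, ∀ B : ℕ, B₀ ≤ B → (kbox N d m A ε F₀ B).Finite ∧
      (1 - ∏ P ∈ S, (1 - 1 / (Ideal.absNorm P : ℝ) ^ ((N + 1) * (N + d).choose d)) - η) *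
        ((kbox N d m A ε F₀ B).ncard : ℝ) ≤
      (({F ∈ kbox N d m A ε F₀ B |
        (∀ z, gm (RingHom.id ℂ) (comb (fun j => σ (e j)) F) z = 0 → z = 0) ∧
          FullDML (gm (RingHom.id ℂ) (comb (fun j => σ (e j)) F))}).ncard : ℝ) := by
  obtain ⟨Fb, hFb, hGood⟩ := exists_good_forms (N := N) hd S hS
  obtain ⟨B₀, h⟩ := fk_count N d m K e hd hm S hS Fb hFb A ε F₀ hA hε hF₀ η hη
  refine ⟨B₀, fun B hB => ?_⟩
  obtain ⟨hfin, h1⟩ := h B hB
  refine ⟨hfin, h1.trans (Nat.cast_le.2 (Set.ncard_le_ncard ?_ (hfin.subset fun F hF => hF.1)))⟩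
  rintro c ⟨hc, P, hP, hred⟩
  refine ⟨hc, ?_⟩
  obtain ⟨p, hpp, hp3, hpP⟩ := (hS P hP).exists_prime hd
  have := Fact.mk hpp
  have hmax := (hS P hP).isMaximal hd
  let := Ideal.Quotient.field P
  let F : Fin (N + 1) → MvPolynomial (Fin (N + 1)) (𝓞 K) := comb (fun j => e j) c
  have hFhom : ∀ i, (F i).IsHomogeneous d := comb_isHomogeneous _ fun j i => (hc j i).1
  obtain ⟨h1, h2⟩ := numberField_dml hp3 σ P hmax hpP
    (Ideal.Quotient.mk P) Ideal.Quotient.mk_surjective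
    (fun x hx => Ideal.Quotient.eq_zero_iff_mem.1 hx) F hFhom (by
      have h5 : (fun i => map (Ideal.Quotient.mk P) (F i)) = Fb P := funext hred
      rw [h5]
      exact hGood P hP hmax)
  have h3 : gm (σ.comp (algebraMap (𝓞 K) K)) F =
      gm (RingHom.id ℂ) (comb (fun j => σ (e j)) c) := by
    funext z
    have h4 : (fun i => map (σ.comp (algebraMap (𝓞 K) K)) (F i)) =
        comb (fun j => σ (e j)) c := funext fun i => map_comb _ _ _ i
    rw [← h4, gm_map, RingHom.id_comp]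
  rw [← h3]
  exact ⟨h2, h1⟩

end main

end

end Pool.Agent.Helper87.FK
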