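import Mathlib

/-!
# FK: unramified primes of degree one of a number field give embeddings in `ℤ_[p]`
-/

set_option autoImplicit false

namespace Pool.Agent.Helper87.FK

open NumberField

/-- the unramified primes of degree one over `p` -/
def splitPrimes (K : Type) [Field K] [NumberField K] (p : ℕ) : Set (Ideal (𝓞 K)) :=
  {P | P.IsPrime ∧ Ideal.absNorm P = p ∧ (p : 𝓞 K) ∉ P ^ 2}

variable {K : Type} [Field K] [NumberField K] {p : ℕ} [hp : Fact p.Prime]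

theorem p_mem {P : Ideal (𝓞 K)} (hP : P ∈ splitPrimes K p) : (p : 𝓞 K) ∈ P := by
  have h := Ideal.absNorm_mem P
  rwa [hP.2.1] at h

theorem ne_bot {P : Ideal (𝓞 K)} (hP : P ∈ splitPrimes K p) : P ≠ ⊥ := by
  intro h
  have h1 := p_mem hP
  rw [h, Ideal.mem_bot] at h1
  exact hp.out.ne_zero (by exact_mod_cast h1)

theorem isPrime_elem {P : Ideal (𝓞 K)} (hP : P ∈ splitPrimes K p) : Prime P :=
  Ideal.prime_of_isPrime (ne_bot hP) hP.1

theorem exists_J {P : Ideal (𝓞 K)} (hP : P ∈ splitPrimes K p) :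
    ∃ J : Ideal (𝓞 K), Ideal.span {(p : 𝓞 K)} = P * J ∧ ¬ P ∣ J := by
  have h1 : P ∣ Ideal.span {(p : 𝓞 K)} := by
    rw [Ideal.dvd_span_singleton]
    exact p_mem hP
  obtain ⟨J, hJ⟩ := h1
  refine ⟨J, hJ, fun h2 => hP.2.2 ?_⟩
  obtain ⟨J', rfl⟩ := h2
  have h3 : P ^ 2 ∣ Ideal.span {(p : 𝓞 K)} := ⟨J', by rw [hJ]; ring⟩
  rwa [Ideal.dvd_span_singleton] at h3

/-- `p ^ j ∈ P ^ k` only for `k ≤ j` -/
theorem pow_mem_pow {P : Ideal (𝓞 K)} (hP : P ∈ splitPrimes K p) {j k : ℕ}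
    (h : (p : 𝓞 K) ^ j ∈ P ^ k) : k ≤ j := by
  by_contra hlt
  push Not at hlt
  obtain ⟨J, hJ, hPJ⟩ := exists_J hP
  have h1 : P ^ k ∣ Ideal.span {(p : 𝓞 K)} ^ j := by
    rw [Ideal.span_singleton_pow, Ideal.dvd_span_singleton]
    exact h
  rw [hJ, mul_pow] at h1
  have h2 : P ^ (j + 1) ∣ P ^ j * J ^ j := (pow_dvd_pow P hlt).trans h1
  rw [pow_succ] at h2
  have h3 : P ∣ J ^ j := by
    have h4 : P ^ j ≠ 0 := pow_ne_zero _ (isPrime_elem hP).ne_zero
    exact (mul_dvd_mul_iff_left h4).1 h2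
  exact hPJ ((isPrime_elem hP).dvd_of_dvd_pow h3)

theorem intCast_mem_P {P : Ideal (𝓞 K)} (hP : P ∈ splitPrimes K p) {a : ℤ} :
    (a : 𝓞 K) ∈ P ↔ (p : ℤ) ∣ a := by
  constructor
  · intro h
    by_contra hnd
    have hcop : IsCoprime (p : ℤ) a :=
      (Nat.prime_iff_prime_int.1 hp.out).irreducible.coprime_iff_not_dvd.2 hnd
    obtain ⟨u, v, huv⟩ := hcop
    apply hP.1.ne_top
    rw [Ideal.eq_top_iff_one]
    have h1 : (1 : 𝓞 K) = u * p + v * a := by
      have := congrArg (Int.cast : ℤ → 𝓞 K) huv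
      push_cast at this
      exact this.symm
    rw [h1]
    exact P.add_mem (P.mul_mem_left _ (p_mem hP)) (P.mul_mem_left _ h)
  · rintro ⟨b, rfl⟩
    push_cast
    exact P.mul_mem_right _ (p_mem hP)

theorem intCast_mem_pow {P : Ideal (𝓞 K)} (hP : P ∈ splitPrimes K p) (k : ℕ) {a : ℤ} :
    (a : 𝓞 K) ∈ P ^ k ↔ ((p ^ k : ℕ) : ℤ) ∣ a := by
  constructor
  · intro h
    by_cases ha : a = 0
    · rw [ha]
      exact dvd_zero _
    obtain ⟨b, hb⟩ := pow_multiplicity_dvd (p : ℤ) a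
    have hfin : FiniteMultiplicity (p : ℤ) a :=
      Int.finiteMultiplicity_iff.2 ⟨by simpa using hp.out.ne_one, ha⟩
    have hnb : ¬ (p : ℤ) ∣ b := by
      rintro ⟨c, rfl⟩
      apply hfin.not_pow_dvd_of_multiplicity_lt (Nat.lt_succ_self _)
      exact ⟨c, by rw [pow_succ]; linear_combination hb⟩
    set j := multiplicity (p : ℤ) a with hj
    have hcop : IsCoprime ((p : ℤ) ^ k) b :=
      IsCoprime.pow_left ((Nat.prime_iff_prime_int.1 hp.out).irreducible.coprime_iff_not_dvd.2 hnb)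
    obtain ⟨u, v, huv⟩ := hcop
    have h1 : (p : 𝓞 K) ^ j ∈ P ^ k := by
      have h2 : (p : 𝓞 K) ^ j = u * (p : 𝓞 K) ^ j * (p : 𝓞 K) ^ k + v * a := by
        have h3 := congrArg (Int.cast : ℤ → 𝓞 K) huv
        have h4 := congrArg (Int.cast : ℤ → 𝓞 K) hb
        push_cast at h3 h4
        linear_combination (-(p : 𝓞 K) ^ j) * h3 - (v : 𝓞 K) * h4
      rw [h2]
      exact (P ^ k).add_mem ((P ^ k).mul_mem_left _ (Ideal.pow_mem_pow (p_mem hP) k))
        ((P ^ k).mul_mem_left _ h)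
    have h5 := pow_mem_pow hP h1
    rw [hb]
    push_cast
    exact Dvd.dvd.mul_right (pow_dvd_pow _ h5) _
  · rintro ⟨b, rfl⟩
    push_cast
    exact (P ^ k).mul_mem_right _ (Ideal.pow_mem_pow (p_mem hP) k)

theorem card_quot {P : Ideal (𝓞 K)} (hP : P ∈ splitPrimes K p) (k : ℕ) :
    Nat.card (𝓞 K ⧸ P ^ k) = p ^ k := by
  have h := Ideal.absNorm_apply (P ^ k)
  rw [map_pow, hP.2.1, Submodule.cardQuot_apply] at h
  exact h.symm

theorem charP_quot {P : Ideal (𝓞 K)} (hP : P ∈ splitPrimes K p) (k : ℕ) :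
    CharP (𝓞 K ⧸ P ^ k) (p ^ k) := by
  refine ⟨fun x => ?_⟩
  have h1 : ((x : 𝓞 K ⧸ P ^ k)) = Ideal.Quotient.mk (P ^ k) (x : 𝓞 K) := by
    rw [map_natCast]
  rw [h1, Ideal.Quotient.eq_zero_iff_mem]
  have h2 := intCast_mem_pow hP k (a := (x : ℤ))
  rw [Int.cast_natCast, Int.natCast_dvd_natCast] at h2
  exact h2

theorem exists_int {P : Ideal (𝓞 K)} (hP : P ∈ splitPrimes K p) (k : ℕ) (x : 𝓞 K) :
    ∃ a : ℤ, x - a ∈ P ^ k := by
  have := charP_quot hP k
  have hcard := card_quot hP k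
  have hfin : Finite (𝓞 K ⧸ P ^ k) := Nat.finite_of_card_ne_zero (by
    rw [hcard]
    exact pow_ne_zero _ hp.out.ne_zero)
  have := Fintype.ofFinite (𝓞 K ⧸ P ^ k)
  have : NeZero (p ^ k) := ⟨pow_ne_zero _ hp.out.ne_zero⟩
  have hbij : Function.Bijective (ZMod.castHom (dvd_refl (p ^ k)) (𝓞 K ⧸ P ^ k)) := by
    rw [Fintype.bijective_iff_injective_and_card]
    refine ⟨ZMod.castHom_injective _, ?_⟩
    rw [ZMod.card, ← Nat.card_eq_fintype_card, hcard]
  obtain ⟨z, hz⟩ := hbij.2 (Ideal.Quotient.mk (P ^ k) x)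
  refine ⟨(z.val : ℤ), ?_⟩
  rw [← Ideal.Quotient.eq_zero_iff_mem, map_sub, ← hz]
  have h1 : (Ideal.Quotient.mk (P ^ k)) ((z.val : ℤ) : 𝓞 K) = ((z.val : ℕ) : 𝓞 K ⧸ P ^ k) := by
    rw [Int.cast_natCast, map_natCast]
  rw [h1, ZMod.castHom_apply, ZMod.cast_eq_val, sub_self]

/-- an unramified prime of degree one gives an embedding in the `p`-adic integers -/
theorem exists_hom {P : Ideal (𝓞 K)} (hP : P ∈ splitPrimes K p) :
    ∃ φ : 𝓞 K →+* ℤ_[p], ∀ x : 𝓞 K, PadicInt.toZMod (φ x) = 0 ↔ x ∈ P := by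
  classical
  choose a ha using fun (k : ℕ) (x : 𝓞 K) => exists_int hP k x
  have key : ∀ (k : ℕ) (x : 𝓞 K) (b : ℤ), x - b ∈ P ^ k → ((a k x : ℤ) : ZMod (p ^ k)) = b := by
    intro k x b hb
    have h1 : ((b - a k x : ℤ) : 𝓞 K) ∈ P ^ k := by
      have := (P ^ k).sub_mem (ha k x) hb
      rw [show x - (a k x : 𝓞 K) - (x - b) = ((b - a k x : ℤ) : 𝓞 K) by push_cast; ring] at this
      exact this
    rw [intCast_mem_pow hP k] at h1
    exact (ZMod.intCast_eq_intCast_iff_dvd_sub _ _ _).2 h1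
  let f : ∀ k : ℕ, 𝓞 K →+* ZMod (p ^ k) := fun k =>
    { toFun := fun x => ((a k x : ℤ) : ZMod (p ^ k))
      map_one' := by
        rw [key k 1 1 (by simp)]
        simp
      map_zero' := by
        rw [key k 0 0 (by simp)]
        simp
      map_mul' := fun x y => by
        rw [key k (x * y) (a k x * a k y), Int.cast_mul]
        have h := (P ^ k).add_mem ((P ^ k).mul_mem_left x (ha k y))
          ((P ^ k).mul_mem_left ((a k y : ℤ) : 𝓞 K) (ha k x))
        rw [show x * (y - (a k y : 𝓞 K)) + (a k y : 𝓞 K) * (x - (a k x : 𝓞 K)) =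
          x * y - ((a k x * a k y : ℤ) : 𝓞 K) by push_cast; ring] at h
        exact h
      map_add' := fun x y => by
        rw [key k (x + y) (a k x + a k y), Int.cast_add]
        have h := (P ^ k).add_mem (ha k x) (ha k y)
        rw [show x - (a k x : 𝓞 K) + (y - (a k y : 𝓞 K)) =
          x + y - ((a k x + a k y : ℤ) : 𝓞 K) by push_cast; ring] at h
        exact h }
  have hf : ∀ k x, f k x = ((a k x : ℤ) : ZMod (p ^ k)) := fun k x => rfl
  have hcompat : ∀ (k1 k2 : ℕ) (hk : k1 ≤ k2),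
      (ZMod.castHom (pow_dvd_pow p hk) (ZMod (p ^ k1))).comp (f k2) = f k1 := by
    intro k1 k2 hk
    ext x
    rw [RingHom.comp_apply, hf, hf, map_intCast]
    exact (key k1 x (a k2 x) (Ideal.pow_le_pow_right hk (ha k2 x))).symm
  refine ⟨PadicInt.lift hcompat, fun x => ?_⟩
  have h1 : PadicInt.toZModPow 1 (PadicInt.lift hcompat x) = f 1 x := by
    have := PadicInt.lift_spec hcompat 1
    exact congrArg (fun g : 𝓞 K →+* ZMod (p ^ 1) => g x) this
  have h2 : PadicInt.toZMod (PadicInt.lift hcompat x) = 0 ↔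
      PadicInt.toZModPow 1 (PadicInt.lift hcompat x) = 0 := by
    rw [← RingHom.mem_ker, ← RingHom.mem_ker, PadicInt.ker_toZMod, PadicInt.ker_toZModPow,
      PadicInt.maximalIdeal_eq_span_p, pow_one]
  rw [h2, h1, hf]
  have h3 := key 1 x
  constructor
  · intro h4
    have h5 : ((p ^ 1 : ℕ) : ℤ) ∣ a 1 x := (ZMod.intCast_zmod_eq_zero_iff_dvd _ _).1 h4
    have h6 := (intCast_mem_pow hP 1).2 h5
    have h7 := (P ^ 1).add_mem (ha 1 x) h6
    rwa [sub_add_cancel, pow_one] at h7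
  · intro h4
    rw [h3 0 (by rw [Int.cast_zero, sub_zero, pow_one]; exact h4), Int.cast_zero]

/-- independence of the reductions modulo different primes of degree one -/
theorem exists_crt (S : Finset (Ideal (𝓞 K))) (hS : ∀ P ∈ S, P ∈ splitPrimes K p)
    (φ : Ideal (𝓞 K) → 𝓞 K →+* ℤ_[p])
    (hφ : ∀ P ∈ S, ∀ x : 𝓞 K, PadicInt.toZMod (φ P x) = 0 ↔ x ∈ P)
    (r : Ideal (𝓞 K) → ZMod p) : ∃ x : 𝓞 K, ∀ P ∈ S, PadicInt.toZMod (φ P x) = r P := by
  classical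
  obtain ⟨y, hy⟩ := IsDedekindDomain.exists_forall_sub_mem_ideal (s := S) (fun P => P)
    (fun _ => 1) (fun P hP => isPrime_elem (hS P hP)) (fun P _ Q _ h => h)
    (fun P => (((r P.1).val : ℕ) : 𝓞 K))
  refine ⟨y, fun P hP => ?_⟩
  have h1 := hy P hP
  rw [pow_one] at h1
  have h2 := (hφ P hP _).2 h1
  rw [map_sub, map_sub, sub_eq_zero] at h2
  rw [h2, map_natCast, map_natCast, ZMod.natCast_zmod_val]

end Pool.Agent.Helper87.FK
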